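import Pool.Agent.U69.CI.Force

/-!
# Forcing `𝔡(ω₁) ≤ ℵ₂` over an arbitrary ground model

The conditions are the sequences of length less than `ω₂` of functions from `ω₁` to `ω₁`.
-/

set_option autoImplicit false

namespace Pool.Agent.U69.CI

open Cardinal Set Pool.Agent.W684.FM Pool.Agent.Helper669.Forcing

/-- In the extension there is no function from the ground model `ω₁` onto the ground model `ω₂`. -/
def OmegaTwoPreserved (P : Type) [Preorder P] : Set P :=
  fnot (fex fun R : Om1 → Om2 → Set P => fand (IsFun R) (IsOnto R))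

/-- The conditions: only the values of `f` below `len` matter. -/
structure Col where
  /-- the length -/
  len : Om2
  /-- the sequence -/
  f : Om2 → Om1 → Om1

instance : Preorder Col where
  le q p := p.len ≤ q.len ∧ ∀ μ < p.len, q.f μ = p.f μ
  le_refl p := ⟨le_rfl, fun _ _ => rfl⟩
  le_trans r q p hrq hqp := ⟨hqp.1.trans hrq.1, fun μ hμ => by
    rw [hrq.2 μ (hμ.trans_le hqp.1), hqp.2 μ hμ]⟩

theorem exists_bound_om2_of {T : Type} (hT : #T ≤ ℵ₁) (u : T → Om2) : ∃ ν, ∀ t, u t ≤ ν := by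
  by_contra hcon
  push Not at hcon
  have h1 : (Set.univ : Set Om2) ⊆ ⋃ j, Iio (u j) := by
    intro ν _
    obtain ⟨j, hj⟩ := hcon ν
    exact mem_iUnion.2 ⟨j, hj⟩
  have h2 : #Om2 ≤ ℵ₁ := by
    rw [← Cardinal.mk_univ]
    refine (Cardinal.mk_le_mk_of_subset h1).trans ((Cardinal.mk_iUnion_le _).trans ?_)
    exact Cardinal.mul_le_of_le (Cardinal.aleph0_le_aleph 1) hT (ciSup_le' fun b => mk_Iio_om2 _)
  rw [Cardinal.mk_ord_toType, aleph2_eq] at h2
  exact absurd h2 (not_le.2 (Order.lt_succ _))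

theorem Col.lb {T : Type} (hT : #T ≤ ℵ₁) (p : T → Col) (hp : ∀ s t, p s ≤ p t ∨ p t ≤ p s) :
    ∃ q, ∀ t, q ≤ p t := by
  classical
  obtain ⟨ν, hν⟩ := exists_bound_om2_of hT fun t => (p t).len
  obtain ⟨w0⟩ : Nonempty Om1 := inferInstance
  refine ⟨⟨ν, fun μ => if h : ∃ t, μ < (p t).len then (p h.choose).f μ else fun _ => w0⟩,
    fun t => ⟨hν t, fun μ hμ => ?_⟩⟩
  have h : ∃ t, μ < (p t).len := ⟨t, hμ⟩
  simp only [dif_pos h]
  rcases hp h.choose t with h1 | h1
  · exact h1.2 μ hμ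
  · exact (h1.2 μ h.choose_spec).symm

/-- Every name of a function on a set of size at most `ℵ₁` can be decided. -/
theorem Col.decide {T Y : Type} [LinearOrder T] [WellFoundedLT T] [Nonempty T] (hT : #T ≤ ℵ₁)
    (R : T → Y → Set Col) (q : Col) (hq : q ∈ IsFun R) :
    ∃ q' ≤ q, ∃ b : T → Y, ∀ i, q' ∈ meets (R i (b i)) := by
  classical
  obtain ⟨t0⟩ : Nonempty T := inferInstance
  obtain ⟨-, -, y0, -⟩ := IsFun.total hq t0
  have : Nonempty (Col × Y) := ⟨(q, y0)⟩
  have h1 : (1 : Cardinal.{0}) ≤ ℵ₁ := Cardinal.one_le_aleph0.trans (Cardinal.aleph0_le_aleph 1)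
  obtain ⟨f, hf⟩ := wf_rec (A := T) (B := Col × Y)
    (fun i f z => z.1 ≤ q ∧ (∀ j < i, z.1 ≤ (f j).1) ∧ z.1 ∈ meets (R i z.2))
    (by
      rintro i f f' z hag ⟨h1, h2, h3⟩
      exact ⟨h1, fun j hj => by rw [← hag j hj]; exact h2 j hj, h3⟩)
    (by
      intro i f ih
      obtain ⟨r, hr⟩ := Col.lb (T := Option (Iio i)) (by
          rw [mk_option]
          exact add_le_of_le (Cardinal.aleph0_le_aleph 1) ((mk_subtype_le _).trans hT) h1)
        (fun o => match o with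
          | none => q
          | some j => (f j.1).1) (by
          rintro (_ | ⟨j, hj⟩) (_ | ⟨j', hj'⟩)
          · exact Or.inl le_rfl
          · exact Or.inr (ih j' hj').1
          · exact Or.inl (ih j hj).1
          · rcases lt_trichotomy j j' with h | h | h
            · exact Or.inr ((ih j' hj').2.1 j h)
            · subst h
              exact Or.inl le_rfl
            · exact Or.inl ((ih j hj).2.1 j' h))
      have hrq : r ≤ q := hr none
      obtain ⟨r', hr', y, hy⟩ := IsFun.total (down_IsFun R q hq r hrq) i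
      exact ⟨(r', y), hr'.trans hrq, fun j hj => hr'.trans (hr (some ⟨j, hj⟩)), hy⟩)
  obtain ⟨q', hq'⟩ := Col.lb hT (fun i => (f i).1) (by
    intro i j
    rcases lt_trichotomy i j with h | h | h
    · exact Or.inr ((hf j).2.1 i h)
    · subst h
      exact Or.inl le_rfl
    · exact Or.inl ((hf i).2.1 j h))
  exact ⟨q', (hq' t0).trans (hf t0).1, fun i => (f i).2, fun i =>
    down_meets _ _ (hf i).2.2 _ (hq' i)⟩

theorem Col.omegaOnePreserved (p : Col) : p ∈ OmegaOnePreserved Col := by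
  intro q _ hq
  obtain ⟨r, _, R, hR1, hR2⟩ := mem_fex.1 hq q le_rfl
  obtain ⟨r', hr', b, hb⟩ := Col.decide (T := ℕ) (by
    rw [mk_nat]
    exact Cardinal.aleph0_le_aleph 1) R r hR1
  obtain ⟨a, ha⟩ := exists_bound b
  obtain ⟨a', ha'⟩ := exists_gt_om1 a
  obtain ⟨s, hs, n, hn⟩ := mem_fex.1 (hR2 a') r' hr'
  have := IsFun.unique (down_IsFun R r hR1 s (hs.trans hr')) hn (down_meets _ _ (hb n) s hs)
  rw [this] at ha'
  exact absurd (ha n) (not_le.2 ha')

theorem Col.omegaTwoPreserved (p : Col) : p ∈ OmegaTwoPreserved Col := by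
  intro q _ hq
  obtain ⟨r, _, R, hR1, hR2⟩ := mem_fex.1 hq q le_rfl
  obtain ⟨r', hr', b, hb⟩ := Col.decide (T := Om1) (by rw [mk_ord_toType]) R r hR1
  obtain ⟨a, ha⟩ := exists_bound_om2_of (T := Om1) (by rw [mk_ord_toType]) b
  obtain ⟨a', ha'⟩ := exists_gt_om2 a
  obtain ⟨s, hs, n, hn⟩ := mem_fex.1 (hR2 a') r' hr'
  have := IsFun.unique (down_IsFun R r hR1 s (hs.trans hr')) hn (down_meets _ _ (hb n) s hs)
  rw [this] at ha'
  exact absurd (ha n) (not_le.2 ha')

theorem Col.domHolds (p : Col) : p ∈ DomOm1Holds Col := by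
  classical
  let F : Om2 → Om1 → Om1 → Set Col := fun ν i y => {p | ν < p.len ∧ p.f ν i = y}
  have hF : ∀ ν i y, Down (F ν i y) := by
    rintro ν i y p ⟨h1, h2⟩ q hq
    exact ⟨h1.trans_le hq.1, by rw [hq.2 ν h1, h2]⟩
  refine mem_fex_of_mem F (down_fand (down_fall fun _ => down_IsFun _)
    (down_fall fun _ => down_fimp _ _)) ⟨fun ν => ⟨fun x => ?_, fun x y y' => ?_⟩, fun h => ?_⟩
  · rw [mem_fex]
    intro q hq
    obtain ⟨ν', hν'⟩ := exists_gt_om2 (max ν q.len)
    refine ⟨⟨ν', q.f⟩, ⟨((le_max_right _ _).trans_lt hν').le, fun _ _ => rfl⟩, q.f ν x,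
      meets_of_mem ⟨(le_max_left _ _).trans_lt hν', rfl⟩⟩
  · rw [mem_fimp]
    rintro q - ⟨h1, h3⟩
    refine ⟨q, le_rfl, ?_⟩
    obtain ⟨r, hr, h4⟩ := exists_of_meets (hF ν x y) h1
    obtain ⟨r', hr', h5⟩ := exists_of_meets (hF ν x y') (down_meets _ _ h3 r hr)
    have h6 := hF ν x y r h4 r' hr'
    rw [mem_fground, ← h6.2, h5.2]
  · rw [mem_fimp]
    intro q _ hq
    obtain ⟨q', hq', b, hb⟩ := Col.decide (T := Om1) (by rw [mk_ord_toType]) h q hq
    obtain ⟨ν', hν'⟩ := exists_gt_om2 q'.len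
    let r : Col := ⟨ν', Function.update q'.f q'.len b⟩
    have hr : r ≤ q' := ⟨hν'.le, fun μ hμ => Function.update_of_ne hμ.ne _ _⟩
    refine ⟨r, hr.trans hq', mem_fex_of_mem q'.len (down_fall fun _ => down_fex _) fun i => ?_⟩
    refine mem_fex_of_mem (b i) (down_fex _) (mem_fex_of_mem (b i) (down_fand (down_meets _)
      (down_fand (down_meets _) (down_fground _))) ⟨down_meets _ _ (hb i) r hr,
        meets_of_mem ⟨hν', ?_⟩, mem_fground.2 le_rfl⟩)
    show Function.update q'.f q'.len b q'.len i = b i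
    rw [Function.update_self]

/-- Some forcing notion preserves `ω₁` and `ω₂` and forces `𝔡(ω₁) ≤ ℵ₂`. -/
theorem exists_forcing_dom :
    ∃ (P : Type) (_ : Preorder P), Nonempty P ∧ ∀ p : P,
      p ∈ OmegaOnePreserved P ∧ p ∈ OmegaTwoPreserved P ∧ p ∈ DomOm1Holds P := by
  obtain ⟨w0⟩ : Nonempty Om1 := inferInstance
  have : Nonempty Om2 := by
    rw [← Cardinal.mk_ne_zero_iff, Cardinal.mk_ord_toType]
    exact (Cardinal.aleph_pos _).ne'
  exact ⟨Col, inferInstance, ⟨⟨Classical.arbitrary _, fun _ _ => w0⟩⟩, fun p =>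
    ⟨Col.omegaOnePreserved p, Col.omegaTwoPreserved p, Col.domHolds p⟩⟩

end Pool.Agent.U69.CI
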