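import Pool.Agent.K1H57.MATools

/-!
# A tower of closed unbounded sets with counting functions

`Proj f` says that `f : ω₁ → ω₁` maps `x` to the greatest element of a closed unbounded set below
`x`. The main result is the existence, if the dominating number of `ω₁` is at most `ℵ₂`, of a
sequence of length `ω₂` of pairs `(f, g)` of such a function and a function `g : ω₁ → ℕ` which counts
how often `f x` has dropped.
-/

set_option autoImplicit false

namespace Pool.Agent.U69.CI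

open Cardinal Set Pool.Agent.W684.FM

/-! ### Basic facts on `ω₁` -/

theorem countable_Iio (w : Om1) : (Iio w).Countable := by
  have h : #(Iio w) < ℵ₁ := by
    have := Cardinal.mk_Iio_lt w (by rw [Cardinal.mk_ord_toType, Ordinal.type_toType])
    rwa [Cardinal.mk_ord_toType] at this
  exact Cardinal.le_aleph0_iff_set_countable.1
    (Order.lt_succ_iff.1 (h.trans_eq Cardinal.succ_aleph0.symm))

theorem countable_Iic (w : Om1) : (Iic w).Countable := by
  have : Iic w = Iio w ∪ {w} := by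
    ext x; simp [le_iff_lt_or_eq]
  rw [this]
  exact (countable_Iio w).union (countable_singleton w)

theorem exists_lt_of_countable {s : Set Om1} (hs : s.Countable) : ∃ a, ∀ x ∈ s, x < a := by
  rcases s.eq_empty_or_nonempty with rfl | hne
  · obtain ⟨a⟩ : Nonempty Om1 := inferInstance
    exact ⟨a, by simp⟩
  · obtain ⟨g, rfl⟩ := hs.exists_eq_range hne
    obtain ⟨a, ha⟩ := exists_bound g
    obtain ⟨b, hb⟩ := exists_gt_om1 a
    refine ⟨b, ?_⟩
    rintro _ ⟨n, rfl⟩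
    exact (ha n).trans_lt hb

/-- closure points of a function -/
def CP (h : Om1 → Om1) (e : Om1) : Prop := ∀ v < e, h v < e

theorem exists_cp (h : Om1 → Om1) (w : Om1) : ∃ e, w < e ∧ CP h e := by
  have h1 : ∀ v : Om1, ∃ v', v < v' ∧ ∀ u ≤ v, h u < v' := by
    intro v
    obtain ⟨a, ha⟩ := exists_lt_of_countable (s := insert v (h '' Iic v))
      (((countable_Iic v).image h).insert v)
    exact ⟨a, ha v (mem_insert _ _), fun u hu => ha _ (mem_insert_of_mem _ ⟨u, hu, rfl⟩)⟩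
  choose nx hn1 hn2 using h1
  let e : ℕ → Om1 := fun n => nx^[n + 1] w
  have hes : ∀ n, e (n + 1) = nx (e n) := fun n => Function.iterate_succ_apply' nx (n + 1) w
  obtain ⟨b, hb⟩ := exists_bound e
  let U : Set Om1 := {u | ∀ n, e n ≤ u}
  have hU : U.Nonempty := ⟨b, hb⟩
  let u := WellFounded.min (wellFounded_lt (α := Om1)) U hU
  have hu : ∀ n, e n ≤ u := WellFounded.min_mem (wellFounded_lt (α := Om1)) U hU
  refine ⟨u, ?_, ?_⟩
  · exact (hn1 w).trans_le (hu 0)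
  · intro v hv
    have h2 : v ∉ U := fun hvU => WellFounded.not_lt_min (wellFounded_lt (α := Om1)) U hvU hv
    have h3 : ∃ n, v < e n := by
      by_contra hcon
      push Not at hcon
      exact h2 hcon
    obtain ⟨n, hn⟩ := h3
    have h4 : h v < e (n + 1) := by
      rw [hes]
      exact hn2 _ _ hn.le
    exact h4.trans_le (hu _)

/-- `f x` is the greatest element `≤ x` of a closed unbounded set. -/
structure Proj (f : Om1 → Om1) : Prop where
  le : ∀ x, f x ≤ x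
  mono : ∀ x y, x ≤ y → f x ≤ f y
  idem : ∀ x, f (f x) = f x
  unb : ∀ w, ∃ x, w < x ∧ f x = x

theorem Proj.fix_le {f : Om1 → Om1} (hf : Proj f) {x y : Om1} (hx : f x = x) (h : x ≤ y) :
    x ≤ f y := by
  have := hf.mono x y h
  rwa [hx] at this

theorem proj_id : Proj (fun x : Om1 => x) :=
  ⟨fun _ => le_rfl, fun _ _ h => h, fun _ => rfl, fun w => by
    obtain ⟨b, hb⟩ := exists_gt_om1 w
    exact ⟨b, hb, rfl⟩⟩

theorem exists_proj (h : Om1 → Om1) : ∃ f : Om1 → Om1, Proj f ∧ (∀ x, CP h (f x)) ∧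
    ∀ e x, e ≤ x → CP h e → e ≤ f x := by
  have key : ∀ x : Om1, ∃ u, u ≤ x ∧ CP h u ∧ ∀ e, e ≤ x → CP h e → e ≤ u := by
    intro x
    let U : Set Om1 := {u | ∀ e, e ≤ x → CP h e → e ≤ u}
    have hU : U.Nonempty := ⟨x, fun e he _ => he⟩
    let u := WellFounded.min (wellFounded_lt (α := Om1)) U hU
    have hu : ∀ e, e ≤ x → CP h e → e ≤ u :=
      WellFounded.min_mem (wellFounded_lt (α := Om1)) U hU
    have hux : u ≤ x := by
      by_contra hcon
      push Not at hcon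
      exact WellFounded.not_lt_min (wellFounded_lt (α := Om1)) U (x := x) (fun e he _ => he) hcon
    refine ⟨u, hux, ?_, hu⟩
    intro v hv
    have h2 : v ∉ U := fun hvU => WellFounded.not_lt_min (wellFounded_lt (α := Om1)) U hvU hv
    have h3 : ∃ e, e ≤ x ∧ CP h e ∧ v < e := by
      by_contra hcon
      push Not at hcon
      exact h2 hcon
    obtain ⟨e, he1, he2, he3⟩ := h3
    exact (he2 v he3).trans_le (hu e he1 he2)
  choose f hf1 hf2 hf3 using key
  refine ⟨f, ⟨hf1, fun x y hxy => hf3 y _ ((hf1 x).trans hxy) (hf2 x),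
    fun x => le_antisymm (hf1 _) (hf3 _ _ le_rfl (hf2 x)), fun w => ?_⟩, hf2, fun e x h1 h2 =>
      hf3 x e h1 h2⟩
  obtain ⟨e, he1, he2⟩ := exists_cp h w
  exact ⟨e, he1, le_antisymm (hf1 _) (hf3 _ _ le_rfl he2)⟩

/-! ### The step -/

/-- pairs -/
abbrev Pr : Type := (Om1 → Om1) × (Om1 → ℕ)

/-- the relation between an earlier and a later pair at `x` -/
def RA (p q : Pr) (x : Om1) : Prop :=
  q.1 x ≤ p.1 x ∧ p.2 x ≤ q.2 x ∧ (q.1 x = p.1 x ↔ q.2 x = p.2 x)

/-- the relation between an earlier and a later pair -/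
def RR (p q : Pr) : Prop := ∃ a, ∀ x, a ≤ x → RA p q x

theorem step {M : Type} [LinearOrder M] (m : Om1 → M) (hm : Function.Surjective m)
    (c : M → Pr) (hc : ∀ μ, Proj (c μ).1) (hR : ∀ μ μ', μ < μ' → RR (c μ) (c μ'))
    (d : Om1 → Om1) :
    ∃ q : Pr, Proj q.1 ∧ (∀ μ, RR (c μ) q) ∧ (∀ x, CP d (q.1 x)) ∧
      ∀ μ w, ∃ i, w < i ∧ (c μ).1 i = i ∧ q.1 i < i := by
  classical
  -- error bounds
  have hE : ∀ μ μ', ∃ a, μ < μ' → ∀ x, a ≤ x → RA (c μ) (c μ') x := by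
    intro μ μ'
    by_cases h : μ < μ'
    · obtain ⟨a, ha⟩ := hR μ μ' h
      exact ⟨a, fun _ => ha⟩
    · obtain ⟨a⟩ : Nonempty Om1 := inferInstance
      exact ⟨a, fun h' => absurd h' h⟩
  choose er her using hE
  have hH : ∀ v : Om1, ∃ v', d v < v' ∧ (∀ j ≤ v, ∀ j' ≤ v, er (m j) (m j') < v') ∧
      ∀ j ≤ v, ∃ x, v < x ∧ x < v' ∧ (c (m j)).1 x = x := by
    intro v
    have h1 : ∀ j, ∃ x, v < x ∧ (c (m j)).1 x = x := fun j => (hc (m j)).unb v
    choose X hX1 hX2 using h1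
    obtain ⟨a, ha⟩ := exists_lt_of_countable (s := {d v} ∪ (X '' Iic v) ∪
      (fun p : Om1 × Om1 => er (m p.1) (m p.2)) '' (Iic v ×ˢ Iic v))
      (((countable_singleton _).union ((countable_Iic v).image X)).union
        (((countable_Iic v).prod (countable_Iic v)).image _))
    refine ⟨a, ha _ (Or.inl (Or.inl rfl)), fun j hj j' hj' => ha _ (Or.inr ⟨(j, j'), ⟨hj, hj'⟩, rfl⟩),
      fun j hj => ⟨X j, hX1 j, ha _ (Or.inl (Or.inr ⟨j, hj, rfl⟩)), hX2 j⟩⟩
  choose H hH1 hH2 hH3 using hH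
  obtain ⟨f, hf, hf1, hf2⟩ := exists_proj H
  -- properties of closure points
  have P1 : ∀ e, CP H e → ∀ j < e, ∀ j' < e, er (m j) (m j') ≤ e := by
    intro e he j hj j' hj'
    exact ((hH2 (max j j') j (le_max_left _ _) j' (le_max_right _ _)).trans
      (he _ (max_lt hj hj'))).le
  have P2 : ∀ e, CP H e → ∀ j < e, ∀ w < e, ∃ x, w < x ∧ x < e ∧ (c (m j)).1 x = x := by
    intro e he j hj w hw
    obtain ⟨x, h1, h2, h3⟩ := hH3 (max j w) j (le_max_left _ _)
    exact ⟨x, (le_max_right _ _).trans_lt h1, h2.trans (he _ (max_lt hj hw)), h3⟩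
  have P3 : ∀ e, CP H e → ∀ j < e, (c (m j)).1 e = e := by
    intro e he j hj
    refine le_antisymm ((hc _).le e) ?_
    by_contra hcon
    push Not at hcon
    obtain ⟨x, h1, h2, h3⟩ := P2 e he j hj _ hcon
    have := (hc (m j)).fix_le h3 h2.le
    exact absurd h1 (not_lt.2 this)
  have P4 : ∀ e, CP H e → CP d e := fun e he v hv => (hH1 v).trans (he v hv)
  -- the relation between two members below `f x`
  have P5 : ∀ x, ∀ j < f x, ∀ j' < f x, m j < m j' → RA (c (m j)) (c (m j')) x := by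
    intro x j hj j' hj' hlt
    exact her _ _ hlt x ((P1 _ (hf1 x) j hj j' hj').trans (hf.le x))
  -- the index with the least value
  have hJ : ∀ x, ∃ js : Om1, (∃ j, j < f x) → js < f x ∧
      ∀ j < f x, (c (m js)).1 x ≤ (c (m j)).1 x := by
    intro x
    by_cases hne : ∃ j, j < f x
    · let U : Set Om1 := (fun j => (c (m j)).1 x) '' Iio (f x)
      have hU : U.Nonempty := by
        obtain ⟨j, hj⟩ := hne
        exact ⟨_, j, hj, rfl⟩
      obtain ⟨js, hjs, hjs'⟩ := WellFounded.min_mem (wellFounded_lt (α := Om1)) U hU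
      refine ⟨js, fun _ => ⟨hjs, fun j hj => ?_⟩⟩
      simp only at hjs'
      rw [hjs']
      by_contra hcon
      push Not at hcon
      exact WellFounded.not_lt_min (wellFounded_lt (α := Om1)) U ⟨j, hj, rfl⟩ hcon
    · obtain ⟨a⟩ : Nonempty Om1 := inferInstance
      exact ⟨a, fun h => absurd h hne⟩
  choose js hjs using hJ
  let g : Om1 → ℕ := fun x => (c (m (js x))).2 x + if (c (m (js x))).1 x = f x then 0 else 1
  refine ⟨(f, g), hf, ?_, fun x => P4 _ (hf1 x), ?_⟩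
  · intro μ
    obtain ⟨j, rfl⟩ := hm μ
    obtain ⟨e0, he0, hce0⟩ := exists_cp H j
    refine ⟨e0, fun x hx => ?_⟩
    have hjf : j < f x := he0.trans_le (hf2 e0 x hx hce0)
    obtain ⟨hs1, hs2⟩ := hjs x ⟨j, hjf⟩
    have hfle : ∀ i < f x, f x ≤ (c (m i)).1 x := by
      intro i hi
      exact (hc (m i)).fix_le (P3 _ (hf1 x) i hi) (hf.le x)
    have hcmp : (c (m j)).2 x ≤ (c (m (js x))).2 x ∧
        ((c (m (js x))).1 x = (c (m j)).1 x ↔ (c (m (js x))).2 x = (c (m j)).2 x) := by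
      rcases lt_trichotomy (m j) (m (js x)) with h | h | h
      · obtain ⟨-, h2, h3⟩ := P5 x j hjf _ hs1 h
        exact ⟨h2, h3⟩
      · rw [h]; simp
      · obtain ⟨h1, h2, h3⟩ := P5 x _ hs1 j hjf h
        have h4 : (c (m j)).1 x = (c (m (js x))).1 x := le_antisymm h1 (hs2 j hjf)
        have h5 := h3.1 h4
        exact ⟨h5.le, by rw [h4, h5]; simp⟩
    show f x ≤ (c (m j)).1 x ∧ (c (m j)).2 x ≤ g x ∧ (f x = (c (m j)).1 x ↔ g x = (c (m j)).2 x)
    refine ⟨hfle j hjf, hcmp.1.trans (Nat.le_add_right _ _), ?_⟩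
    constructor
    · intro h
      have h1 : (c (m (js x))).1 x = f x :=
        le_antisymm ((hs2 j hjf).trans h.symm.le) (hfle _ hs1)
      have h2 : (c (m (js x))).2 x = (c (m j)).2 x := hcmp.2.1 (h1.trans h)
      simp [g, h1, h2]
    · intro h
      have h1 : (c (m (js x))).1 x = f x := by
        by_contra hne
        simp only [g, hne, if_false] at h
        have := hcmp.1
        omega
      have h2 : (c (m (js x))).2 x = (c (m j)).2 x := by
        simpa [g, h1] using h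
      rw [← h1]
      exact hcmp.2.2 h2
  · intro μ w
    obtain ⟨j, rfl⟩ := hm μ
    obtain ⟨e, he, hce⟩ := exists_cp H (max j w)
    let U : Set Om1 := {i | e < i ∧ (c (m j)).1 i = i}
    have hU : U.Nonempty := (hc (m j)).unb e
    let i := WellFounded.min (wellFounded_lt (α := Om1)) U hU
    have hi : e < i ∧ (c (m j)).1 i = i := WellFounded.min_mem (wellFounded_lt (α := Om1)) U hU
    refine ⟨i, ((le_max_right _ _).trans_lt he).trans hi.1, hi.2, ?_⟩
    refine lt_of_le_of_ne (hf.le i) fun hfi => ?_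
    have hci : CP H i := by
      have := hf1 i
      rwa [show f i = i from hfi] at this
    obtain ⟨x, h1, h2, h3⟩ := P2 i hci j (((le_max_left _ _).trans_lt he).trans hi.1) e hi.1
    exact WellFounded.not_lt_min (wellFounded_lt (α := Om1)) U (x := x) ⟨h1, h3⟩ h2

/-! ### The tower -/

/-- The well-ordered set `ω₂`. -/
abbrev Om2 : Type := (ℵ_ 2 : Cardinal.{0}).ord.ToType

/-- A recursion principle. -/
theorem wf_rec {A B : Type} [LinearOrder A] [WellFoundedLT A] [Nonempty B]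
    (Q : A → (A → B) → B → Prop)
    (hloc : ∀ ν f f' q, (∀ μ < ν, f μ = f' μ) → Q ν f q → Q ν f' q)
    (hex : ∀ ν f, (∀ μ < ν, Q μ f (f μ)) → ∃ q, Q ν f q) : ∃ f : A → B, ∀ ν, Q ν f (f ν) := by
  classical
  let b0 : B := Classical.arbitrary B
  let ext : (ν : A) → ((μ : A) → μ < ν → B) → A → B := fun ν g μ =>
    if h : μ < ν then g μ h else b0
  let G : (ν : A) → ((μ : A) → μ < ν → B) → B := fun ν g =>
    if h : ∃ q, Q ν (ext ν g) q then h.choose else b0
  let f : A → B := (wellFounded_lt (α := A)).fix G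
  have hf : ∀ ν, f ν = G ν (fun μ _ => f μ) := fun ν => WellFounded.fix_eq _ G ν
  refine ⟨f, fun ν => ?_⟩
  induction ν using WellFoundedLT.induction with
  | ind ν ih =>
    obtain ⟨q, hq⟩ := hex ν f ih
    have hag : ∀ μ < ν, f μ = ext ν (fun μ _ => f μ) μ := by
      intro μ hμ
      simp [ext, hμ]
    have h : ∃ q, Q ν (ext ν (fun μ _ => f μ)) q := ⟨q, hloc _ _ _ _ hag hq⟩
    have h2 : f ν = h.choose := by
      rw [hf]
      simp only [G, dif_pos h]
    rw [h2]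
    exact hloc _ _ _ _ (fun μ hμ => (hag μ hμ).symm) h.choose_spec

theorem aleph2_eq : (ℵ_ 2 : Cardinal.{0}) = Order.succ ℵ₁ := by
  rw [Cardinal.succ_aleph, one_add_one_eq_two]

theorem mk_Iio_om2 (ν : Om2) : #(Iio ν) ≤ ℵ₁ := by
  have h : #(Iio ν) < ℵ_ 2 := by
    have := Cardinal.mk_Iio_lt ν (by rw [Cardinal.mk_ord_toType, Ordinal.type_toType])
    rwa [Cardinal.mk_ord_toType] at this
  exact Order.lt_succ_iff.1 (h.trans_eq aleph2_eq)

theorem exists_surj_Iio (ν : Om2) (hne : (Iio ν).Nonempty) :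
    ∃ m : Om1 → Iio ν, Function.Surjective m := by
  have h : #(Iio ν) ≤ #Om1 := by
    rw [Cardinal.mk_ord_toType]
    exact mk_Iio_om2 ν
  have : Nonempty (Iio ν) := hne.to_subtype
  obtain ⟨g⟩ := h
  exact ⟨Function.invFun g, Function.invFun_surjective g.injective⟩

/-- The tower. -/
structure Tower (F : Om2 → Om1 → Om1) (c : Om2 → Pr) : Prop where
  proj : ∀ ν, Proj (c ν).1
  rel : ∀ ν ν', ν < ν' → RR (c ν) (c ν')
  zero : ∃ z, (∀ ν, z ≤ ν) ∧ c z = (fun x => x, fun _ => 0) ∧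
    ∀ ν, z < ν → ∀ x, CP (F ν) ((c ν).1 x)
  drop : ∀ ν ν', ν < ν' → ∀ w, ∃ i, w < i ∧ (c ν).1 i = i ∧ (c ν').1 i < i

theorem exists_tower (F : Om2 → Om1 → Om1) : ∃ c, Tower F c := by
  classical
  obtain ⟨c, hc⟩ := wf_rec (A := Om2) (B := Pr) (fun ν f q => Proj q.1 ∧
      (∀ μ < ν, RR (f μ) q) ∧ ((∃ μ, μ < ν) → ∀ x, CP (F ν) (q.1 x)) ∧
      (∀ μ < ν, ∀ w, ∃ i, w < i ∧ (f μ).1 i = i ∧ q.1 i < i) ∧
      ((¬ ∃ μ, μ < ν) → q = (fun x => x, fun _ => 0))) (by
    rintro ν f f' q hag ⟨h1, h2, h3, h4, h5⟩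
    refine ⟨h1, fun μ hμ => ?_, h3, fun μ hμ => ?_, h5⟩
    · rw [← hag μ hμ]; exact h2 μ hμ
    · rw [← hag μ hμ]; exact h4 μ hμ) (by
    intro ν f ih
    by_cases hne : ∃ μ, μ < ν
    · obtain ⟨m, hm⟩ := exists_surj_Iio ν hne
      obtain ⟨q, h1, h2, h3, h4⟩ := step m hm (fun μ => f μ.1) (fun μ => (ih μ.1 μ.2).1)
        (fun μ μ' h => (ih μ'.1 μ'.2).2.1 μ.1 h) (F ν)
      exact ⟨q, h1, fun μ hμ => h2 ⟨μ, hμ⟩, fun _ => h3, fun μ hμ => h4 ⟨μ, hμ⟩,
        fun h => absurd hne h⟩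
    · refine ⟨(fun x => x, fun _ => 0), proj_id, fun μ hμ => absurd ⟨μ, hμ⟩ hne,
        fun h => absurd h hne, fun μ hμ => absurd ⟨μ, hμ⟩ hne, fun _ => rfl⟩)
  refine ⟨c, ⟨fun ν => (hc ν).1, fun ν ν' h => (hc ν').2.1 ν h, ?_,
    fun ν ν' h => (hc ν').2.2.2.1 ν h⟩⟩
  have : Nonempty Om2 := by
    rw [← Cardinal.mk_ne_zero_iff, Cardinal.mk_ord_toType]
    exact (Cardinal.aleph_pos _).ne'
  let z : Om2 := WellFounded.min (wellFounded_lt (α := Om2)) Set.univ ⟨Classical.arbitrary _, trivial⟩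
  have hz : ∀ ν, z ≤ ν := fun ν => not_lt.1 (WellFounded.not_lt_min _ _ (mem_univ ν))
  exact ⟨z, hz, (hc z).2.2.2.2 (fun ⟨μ, hμ⟩ => absurd hμ (not_lt.2 (hz μ))),
    fun ν hν => (hc ν).2.2.1 ⟨z, hν⟩⟩

/-- The hypothesis on the dominating number of `ω₁`: the family `F` dominates everywhere. -/
def Dom (F : Om2 → Om1 → Om1) : Prop := ∀ h : Om1 → Om1, ∃ ν, ∀ i, h i ≤ F ν i

section Tower

variable {F : Om2 → Om1 → Om1} {c : Om2 → Pr}

theorem exists_gt_om2 (ν : Om2) : ∃ ν', ν < ν' := by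
  by_contra hcon
  push Not at hcon
  have h1 : (Set.univ : Set Om2) = insert ν (Iio ν) := by
    ext x
    simp only [mem_univ, mem_insert_iff, mem_Iio, true_iff]
    exact (hcon x).eq_or_lt
  have h2 : #Om2 ≤ ℵ₁ := by
    rw [← Cardinal.mk_univ, h1]
    refine (Cardinal.mk_insert_le).trans ?_
    exact Cardinal.add_le_of_le (Cardinal.aleph0_le_aleph 1) (mk_Iio_om2 ν)
      (Cardinal.one_le_aleph0.trans (Cardinal.aleph0_le_aleph 1))
  rw [Cardinal.mk_ord_toType, aleph2_eq] at h2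
  exact absurd h2 (not_le.2 (Order.lt_succ _))

theorem Tower.K (hc : Tower F c) (hF : Dom F) (k : Om1 → Om1) :
    ∃ ν, (∀ z, (∀ ν', z ≤ ν') → z < ν) ∧ ∀ i, (c ν).1 (k i) ≤ i := by
  classical
  obtain ⟨z, hz, -, hcp⟩ := hc.zero
  choose nx hnx using exists_gt_om1
  obtain ⟨ν, hν⟩ := hF (fun i => max (k i) (nx (F z i)))
  have hzν : z ≠ ν := by
    rintro rfl
    obtain ⟨i⟩ : Nonempty Om1 := inferInstance
    exact absurd ((le_max_right _ _).trans (hν i)) (not_le.2 (hnx _))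
  have hzν' : z < ν := lt_of_le_of_ne (hz ν) hzν
  refine ⟨ν, fun z' hz' => (hz' z).trans_lt hzν', fun i => ?_⟩
  by_contra hcon
  push Not at hcon
  have h1 := hcp ν hzν' (k i) i hcon
  exact absurd (((le_max_left _ _).trans (hν i))) (not_le.2 (h1.trans_le ((hc.proj ν).le _)))

theorem exists_above (ν ν' : Om2) : ∃ ν'', ν < ν'' ∧ ν' < ν'' := by
  obtain ⟨a, ha⟩ := exists_gt_om2 (max ν ν')
  exact ⟨a, (le_max_left _ _).trans_lt ha, (le_max_right _ _).trans_lt ha⟩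

/-- `f` is constant between `i` and `y` if `f y ≤ i`. -/
theorem Proj.const {f : Om1 → Om1} (hf : Proj f) {i y : Om1} (h : f y ≤ i) {ξ : Om1} (h1 : i < ξ)
    (h2 : ξ ≤ y) : f ξ = f y :=
  le_antisymm (hf.mono _ _ h2) (hf.fix_le (hf.idem y) (h.trans h1.le))

theorem Tower.T (hc : Tower F c) (hF : Dom F) (n : ℕ) : ∀ k : Om1 → Om1, (∀ i, i < k i) →
    ∃ ν, ∀ w, ∃ i, w < i ∧ (c ν).1 (k i) ≤ i ∧ ∀ ξ, i < ξ → ξ ≤ k i → n < (c ν).2 ξ := by
  classical
  induction n with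
  | zero =>
    intro k hk
    obtain ⟨z, hz, hz0, -⟩ := hc.zero
    obtain ⟨ν, hν1, hν2⟩ := hc.K hF k
    obtain ⟨a, ha⟩ := hc.rel z ν (hν1 z hz)
    refine ⟨ν, fun w => ?_⟩
    obtain ⟨i, hi⟩ := exists_gt_om1 (max w a)
    refine ⟨i, (le_max_left _ _).trans_lt hi, hν2 i, fun ξ h1 h2 => ?_⟩
    have h3 := ha ξ (((le_max_right w a).trans_lt hi).le.trans h1.le)
    have h4 : (c ν).1 ξ < ξ := by
      rw [(hc.proj ν).const (hν2 i) h1 h2]
      exact (hν2 i).trans_lt h1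
    rw [hz0] at h3
    obtain ⟨-, -, h5⟩ := h3
    simp only at h5
    exact Nat.pos_of_ne_zero fun h0 => h4.ne (h5.2 h0)
  | succ n ih =>
    intro k hk
    obtain ⟨ν, hν⟩ := ih k hk
    -- for each `v` an index with value above `v`
    have h1 : ∀ v, ∃ i, v < i ∧ v < (c ν).1 (k i) ∧ (c ν).1 (k i) ≤ i ∧
        ∀ ξ, i < ξ → ξ ≤ k i → n < (c ν).2 ξ := by
      intro v
      obtain ⟨x, hx1, hx2⟩ := (hc.proj ν).unb v
      obtain ⟨i, hi1, hi2, hi3⟩ := hν (max v x)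
      refine ⟨i, (le_max_left _ _).trans_lt hi1, ?_, hi2, hi3⟩
      exact hx1.trans_le ((hc.proj ν).fix_le hx2 (((le_max_right v x).trans_lt hi1).le.trans (hk i).le))
    choose I hI1 hI2 hI3 hI4 using h1
    obtain ⟨ν', -, hν'⟩ := hc.K hF (fun v => k (I v))
    obtain ⟨ν'', hl, hl'⟩ := exists_above ν ν'
    obtain ⟨a, ha⟩ := hc.rel ν ν'' hl
    obtain ⟨a', ha'⟩ := hc.rel ν' ν'' hl'
    refine ⟨ν'', fun w => ?_⟩
    let v := max w (max a a')
    have hw : w ≤ v := le_max_left _ _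
    have hav : a ≤ v := (le_max_left _ _).trans (le_max_right _ _)
    have hav' : a' ≤ v := (le_max_right _ _).trans (le_max_right _ _)
    have hkey : ∀ ξ, I v < ξ → ξ ≤ k (I v) → (c ν'').1 ξ ≤ v := by
      intro ξ h1 h2
      have h3 := (ha' ξ (hav'.trans ((hI1 v).trans h1).le)).1
      exact h3.trans (((hc.proj ν').mono _ _ h2).trans (hν' v))
    refine ⟨I v, hw.trans_lt (hI1 v), ?_, fun ξ h1 h2 => ?_⟩
    · exact (hkey _ (hk _) le_rfl).trans (hI1 v).le
    · have h3 := ha ξ (hav.trans ((hI1 v).trans h1).le)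
      have h4 := hI4 v ξ h1 h2
      have h5 : (c ν).1 ξ = (c ν).1 (k (I v)) := (hc.proj ν).const (hI3 v) h1 h2
      have h6 : (c ν'').1 ξ ≠ (c ν).1 ξ := by
        rw [h5]
        exact ((hkey ξ h1 h2).trans_lt (hI2 v)).ne
      have h7 : (c ν'').2 ξ ≠ (c ν).2 ξ := fun h => h6 (h3.2.2.2 h)
      have h8 := h3.2.1
      omega

/-- The level sets. -/
def S (c : Om2 → Pr) (ν : Om2) (n : ℕ) : Set Om1 := {ξ | n < (c ν).2 ξ}

theorem Tower.S_mono (hc : Tower F c) {ν ν' : Om2} (h : ν ≤ ν') :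
    ∃ a, ∀ n, ∀ ξ, a ≤ ξ → ξ ∈ S c ν n → ξ ∈ S c ν' n := by
  rcases h.eq_or_lt with rfl | h
  · obtain ⟨a⟩ : Nonempty Om1 := inferInstance
    exact ⟨a, fun _ _ _ h => h⟩
  · obtain ⟨a, ha⟩ := hc.rel ν ν' h
    exact ⟨a, fun n ξ h1 h2 => lt_of_lt_of_le (show n < (c ν).2 ξ from h2) (ha ξ h1).2.1⟩

/-- strictness of the sequence of the sets `S c ν 0` -/
theorem Tower.S_strict (hc : Tower F c) {ν ν' : Om2} (h : ν < ν') (w : Om1) :
    ∃ ξ, w < ξ ∧ ξ ∈ S c ν' 0 ∧ ξ ∉ S c ν 0 := by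
  obtain ⟨z, hz, hz0, -⟩ := hc.zero
  have hzr : ∀ μ, ∃ a, ∀ x, a ≤ x → ((c μ).1 x = x ↔ (c μ).2 x = 0) := by
    intro μ
    rcases (hz μ).eq_or_lt with rfl | hlt
    · obtain ⟨a⟩ : Nonempty Om1 := inferInstance
      exact ⟨a, fun x _ => by simp [hz0]⟩
    · obtain ⟨a, ha⟩ := hc.rel z μ hlt
      refine ⟨a, fun x hx => ?_⟩
      have := (ha x hx).2.2
      rw [hz0] at this
      exact this
  obtain ⟨a, ha⟩ := hzr ν
  obtain ⟨a', ha'⟩ := hzr ν'
  obtain ⟨i, hi1, hi2, hi3⟩ := hc.drop ν ν' h (max w (max a a'))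
  have h1 : w < i := (le_max_left _ _).trans_lt hi1
  have h2 : a ≤ i := ((le_max_left a a').trans (le_max_right _ _)).trans hi1.le
  have h3 : a' ≤ i := ((le_max_right a a').trans (le_max_right _ _)).trans hi1.le
  refine ⟨i, h1, ?_, ?_⟩
  · exact Nat.pos_of_ne_zero fun h0 => hi3.ne ((ha' i h3).2 h0)
  · intro h0
    exact absurd ((ha i h2).1 hi2) (Nat.pos_iff_ne_zero.1 h0)

end Tower

end Pool.Agent.U69.CI
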