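import Mathlib

/-!
# Ideals, chains of ideals, and the variants of `cofin`
-/

set_option autoImplicit false

namespace Pool.Agent.U69.CI

open Cardinal Set

section Defs

variable {X : Type}

/-- A family of subsets of `X` which is closed under taking subsets. -/
def IsHereditary (I : Set (Set X)) : Prop := ∀ A ∈ I, ∀ B, B ⊆ A → B ∈ I

/-- An ideal: a family of subsets of `X` closed under finite unions (so the empty set belongs to
it) and under taking subsets. -/
def IsIdeal (I : Set (Set X)) : Prop :=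
  ∅ ∈ I ∧ IsHereditary I ∧ ∀ A ∈ I, ∀ B ∈ I, A ∪ B ∈ I

/-- A σ-ideal: an ideal closed under countable unions. -/
def IsSigmaIdeal (I : Set (Set X)) : Prop :=
  IsIdeal I ∧ ∀ A : ℕ → Set X, (∀ n, A n ∈ I) → ⋃ n, A n ∈ I

/-- A Borel σ-ideal on a topological space: a σ-ideal every member of which is contained in a
Borel set belonging to it. -/
def IsBorelSigmaIdeal [TopologicalSpace X] (I : Set (Set X)) : Prop :=
  IsSigmaIdeal I ∧ ∀ A ∈ I, ∃ B ∈ I, A ⊆ B ∧ @MeasurableSet X (borel X) B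

/-- `⟨J α : α < γ⟩` is a strictly increasing sequence, `γ` is a limit ordinal, the union of the
sequence is `I`, and every term satisfies `Φ`. -/
def IsTower (Φ : Set (Set X) → Prop) (I : Set (Set X)) (γ : Ordinal.{0})
    (J : Ordinal.{0} → Set (Set X)) : Prop :=
  Order.IsSuccLimit γ ∧ (∀ α < γ, Φ (J α)) ∧ (∀ A, A ∈ I ↔ ∃ α < γ, A ∈ J α) ∧
    ∀ α β, α < β → β < γ → J α ⊂ J β

/-- The least ordinal in a set of ordinals, and `∞` if there is none. -/
noncomputable def least (T : Set Ordinal.{0}) : WithTop Ordinal.{0} :=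
  sInf ((fun γ : Ordinal.{0} => (γ : WithTop Ordinal.{0})) '' T)

/-- `cofin(I)`: the least limit ordinal `γ` such that `I` is the union of a strictly increasing
sequence of length `γ` of σ-ideals. -/
noncomputable def cofin (I : Set (Set X)) : WithTop Ordinal.{0} :=
  least {γ | ∃ J, IsTower IsSigmaIdeal I γ J}

/-- `cofin⁻(I)`: the same for ideals. -/
noncomputable def cofinMinus (I : Set (Set X)) : WithTop Ordinal.{0} :=
  least {γ | ∃ J, IsTower IsIdeal I γ J}

/-- `cofin*(I)`: the same for families closed under taking subsets. -/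
noncomputable def cofinStar (I : Set (Set X)) : WithTop Ordinal.{0} :=
  least {γ | ∃ J, IsTower IsHereditary I γ J}

/-- `cofin⁺(I)`: the same for σ-ideals, and every singleton has to belong to the first term of the
sequence. -/
noncomputable def cofinPlus (I : Set (Set X)) : WithTop Ordinal.{0} :=
  least {γ | ∃ J, IsTower IsSigmaIdeal I γ J ∧ ∀ x, {x} ∈ J 0}

end Defs

theorem least_le {T : Set Ordinal.{0}} {γ : Ordinal.{0}} (h : γ ∈ T) : least T ≤ γ :=
  sInf_le ⟨γ, h, rfl⟩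

theorem le_least {T : Set Ordinal.{0}} {a : Ordinal.{0}} (h : ∀ γ ∈ T, a ≤ γ) :
    (a : WithTop Ordinal.{0}) ≤ least T := by
  refine le_sInf ?_
  rintro _ ⟨γ, hγ, rfl⟩
  exact WithTop.coe_le_coe.2 (h γ hγ)

theorem least_mono {T T' : Set Ordinal.{0}} (h : T ⊆ T') : least T' ≤ least T :=
  sInf_le_sInf (Set.image_mono h)

theorem least_eq_top {T : Set Ordinal.{0}} (h : T = ∅) : least T = ⊤ := by
  rw [least, h, Set.image_empty]
  exact WithTop.sInf_empty

/-- The minimum of a nonempty set of ordinals is attained (sanity check). -/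
theorem exists_least {T : Set Ordinal.{0}} (h : T.Nonempty) : ∃ γ ∈ T, least T = γ ∧
    ∀ γ' ∈ T, γ ≤ γ' := by
  refine ⟨sInf T, csInf_mem h, ?_, fun γ' h' => csInf_le' h'⟩
  exact le_antisymm (least_le (csInf_mem h)) (le_least fun γ' h' => csInf_le' h')

section Transport

variable {X Y : Type}

/-- the ideal on `Y` which corresponds to `I` under a bijection -/
def tr (φ : X ≃ Y) (I : Set (Set X)) : Set (Set Y) := {A | φ ⁻¹' A ∈ I}

theorem tr_symm_tr (φ : X ≃ Y) (I : Set (Set X)) : tr φ.symm (tr φ I) = I := by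
  ext A
  simp only [tr, mem_ofPred_eq]
  have : φ ⁻¹' (φ.symm ⁻¹' A) = A := by
    ext x; simp
  rw [this]

theorem tr_hereditary (φ : X ≃ Y) {I : Set (Set X)} (h : IsHereditary I) :
    IsHereditary (tr φ I) := fun _ hA _ hB => h _ hA _ (preimage_mono hB)

theorem tr_ideal (φ : X ≃ Y) {I : Set (Set X)} (h : IsIdeal I) : IsIdeal (tr φ I) :=
  ⟨h.1, tr_hereditary φ h.2.1, fun _ hA _ hB => h.2.2 _ hA _ hB⟩

theorem tr_sigmaIdeal (φ : X ≃ Y) {I : Set (Set X)} (h : IsSigmaIdeal I) :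
    IsSigmaIdeal (tr φ I) := by
  refine ⟨tr_ideal φ h.1, fun A hA => ?_⟩
  show φ ⁻¹' (⋃ n, A n) ∈ I
  rw [preimage_iUnion]
  exact h.2 _ hA

theorem tr_tower {Φ : Set (Set X) → Prop} {Ψ : Set (Set Y) → Prop} (φ : X ≃ Y)
    (hΦ : ∀ I, Φ I → Ψ (tr φ I)) {I : Set (Set X)} {γ : Ordinal.{0}}
    {J : Ordinal.{0} → Set (Set X)} (h : IsTower Φ I γ J) :
    IsTower Ψ (tr φ I) γ (fun α => tr φ (J α)) := by
  obtain ⟨h1, h2, h3, h4⟩ := h
  refine ⟨h1, fun α hα => hΦ _ (h2 α hα), fun A => h3 _, fun α β hαβ hβ => ?_⟩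
  obtain ⟨h5, h6⟩ := h4 α β hαβ hβ
  refine ⟨fun A hA => h5 hA, fun hcon => h6 fun A hA => ?_⟩
  have h7 : φ ⁻¹' (φ.symm ⁻¹' A) = A := by
    ext x; simp
  have h8 : φ.symm ⁻¹' A ∈ tr φ (J β) := by
    show φ ⁻¹' (φ.symm ⁻¹' A) ∈ J β
    rw [h7]; exact hA
  have h9 := hcon h8
  change φ ⁻¹' (φ.symm ⁻¹' A) ∈ J α at h9
  rwa [h7] at h9

theorem cofin_tr (φ : X ≃ Y) (I : Set (Set X)) : cofin (tr φ I) = cofin I := by
  refine le_antisymm (least_mono ?_) (least_mono ?_)
  · rintro γ ⟨J, hJ⟩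
    exact ⟨_, tr_tower φ (fun _ => tr_sigmaIdeal φ) hJ⟩
  · rintro γ ⟨J, hJ⟩
    have := tr_tower φ.symm (fun _ => tr_sigmaIdeal φ.symm) hJ
    rw [tr_symm_tr] at this
    exact ⟨_, this⟩

theorem cofinMinus_tr (φ : X ≃ Y) (I : Set (Set X)) : cofinMinus (tr φ I) = cofinMinus I := by
  refine le_antisymm (least_mono ?_) (least_mono ?_)
  · rintro γ ⟨J, hJ⟩
    exact ⟨_, tr_tower φ (fun _ => tr_ideal φ) hJ⟩
  · rintro γ ⟨J, hJ⟩
    have := tr_tower φ.symm (fun _ => tr_ideal φ.symm) hJ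
    rw [tr_symm_tr] at this
    exact ⟨_, this⟩

theorem cofinStar_tr (φ : X ≃ Y) (I : Set (Set X)) : cofinStar (tr φ I) = cofinStar I := by
  refine le_antisymm (least_mono ?_) (least_mono ?_)
  · rintro γ ⟨J, hJ⟩
    exact ⟨_, tr_tower φ (fun _ => tr_hereditary φ) hJ⟩
  · rintro γ ⟨J, hJ⟩
    have := tr_tower φ.symm (fun _ => tr_hereditary φ.symm) hJ
    rw [tr_symm_tr] at this
    exact ⟨_, this⟩

theorem tr_singleton (φ : X ≃ Y) {I : Set (Set X)} (h : ∀ x, {x} ∈ I) (y : Y) :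
    {y} ∈ tr φ I := by
  have : φ ⁻¹' {y} = {φ.symm y} := by
    ext x
    simp [Equiv.eq_symm_apply]
  show φ ⁻¹' {y} ∈ I
  rw [this]
  exact h _

theorem cofinPlus_tr (φ : X ≃ Y) (I : Set (Set X)) : cofinPlus (tr φ I) = cofinPlus I := by
  refine le_antisymm (least_mono ?_) (least_mono ?_)
  · rintro γ ⟨J, hJ, hJ'⟩
    exact ⟨_, tr_tower φ (fun _ => tr_sigmaIdeal φ) hJ, tr_singleton φ hJ'⟩
  · rintro γ ⟨J, hJ, hJ'⟩
    have := tr_tower φ.symm (fun _ => tr_sigmaIdeal φ.symm) hJ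
    rw [tr_symm_tr] at this
    exact ⟨_, this, tr_singleton φ.symm hJ'⟩

end Transport

end Pool.Agent.U69.CI
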