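import Pool.Agent.W684.FM.Ambient
import Pool.Agent.Helper126.Fact

/-!
# Martin's axiom and families of sets of natural numbers with a prescribed pattern

Under Martin's axiom for `κ` dense sets every family of at most `κ` subsets `s l` of a set `W` with
at most `κ` elements can be represented by subsets `e l` of `ℕ`: for every finite set `F` of
indices almost every natural number `k` has the same pattern (on `F`) as some element `w` of `W`,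
and the pattern of every element of `W` is the pattern of infinitely many natural numbers.
-/

set_option autoImplicit false

namespace Pool.Agent.U69.CI

open Cardinal Set Pool.Agent.W684 Pool.Agent.W684.FM

/-- Martin's axiom for indexed families of dense sets. -/
theorem martin_ccc {κ : Cardinal.{0}} (hMA : MartinAxiomCard κ) (P : Type) [Preorder P]
    [Nonempty P] (hccc : IsCCC P) {X : Type} (hX : #X ≤ κ) (D : X → Set P)
    (hD : ∀ i p, ∃ q ∈ D i, q ≤ p) :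
    ∃ G : Set P, (∀ p ∈ G, ∀ q ∈ G, ∃ r ∈ G, r ≤ p ∧ r ≤ q) ∧ ∀ i, ∃ p ∈ G, p ∈ D i := by
  obtain ⟨G, -, -, h3, h4⟩ := hMA P hccc (Set.range D) ((mk_range_le).trans hX) (by
    rintro _ ⟨i, rfl⟩ p
    exact hD i p)
  refine ⟨G, h3, fun i => ?_⟩
  obtain ⟨p, hp⟩ := h4 (D i) ⟨i, rfl⟩
  exact ⟨p, hp.1, hp.2⟩

/-- Conditions: a finite part of the representation together with promises. -/
structure EC {L W : Type} (s : L → Set W) where
  /-- the length -/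
  n : ℕ
  /-- the promises -/
  F : Finset L
  /-- the finite part -/
  A : Set (ℕ × L)

namespace EC

variable {L W : Type} {s : L → Set W}

instance : Preorder (EC s) where
  le q p := p.n ≤ q.n ∧ p.F ⊆ q.F ∧ (∀ k < p.n, ∀ l ∈ p.F, ((k, l) ∈ q.A ↔ (k, l) ∈ p.A)) ∧
    ∀ k, p.n ≤ k → k < q.n → ∃ w, ∀ l ∈ p.F, ((k, l) ∈ q.A ↔ w ∈ s l)
  le_refl p := ⟨le_rfl, Finset.Subset.refl _, fun _ _ _ _ => Iff.rfl,
    fun k h h' => absurd h' (not_lt.2 h)⟩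
  le_trans r q p hrq hqp := by
    obtain ⟨r1, r2, r3, r4⟩ := hrq
    obtain ⟨q1, q2, q3, q4⟩ := hqp
    refine ⟨q1.trans r1, q2.trans r2, fun k hk l hl => ?_, fun k h1 h2 => ?_⟩
    · rw [r3 k (hk.trans_le q1) l (q2 hl), q3 k hk l hl]
    · by_cases h : k < q.n
      · obtain ⟨w, hw⟩ := q4 k h1 h
        refine ⟨w, fun l hl => ?_⟩
        rw [r3 k h l (q2 hl), hw l hl]
      · obtain ⟨w, hw⟩ := r4 k (not_lt.1 h) h2
        exact ⟨w, fun l hl => hw l (q2 hl)⟩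

theorem ccc : IsCCC (EC s) := by
  classical
  intro A hA
  by_contra hunc
  obtain ⟨J, R, hJA, hJ, hR, hd⟩ := Helper126.delta_system (fun p : EC s => p.F) A hunc
  obtain ⟨⟨n, B⟩, hB⟩ := Helper126.uncountable_fiber (C := ℕ × Finset (ℕ × R))
    (fun p : EC s => (p.n, (Finset.range p.n ×ˢ R.attach).filter
      (fun x => (x.1, x.2.1) ∈ p.A))) J hJ
  have hex : ∃ p ∈ J, ∃ q ∈ J, p ≠ q ∧ (p.n = n ∧ (Finset.range p.n ×ˢ R.attach).filter
      (fun x => (x.1, x.2.1) ∈ p.A) = B) ∧ (q.n = n ∧ (Finset.range q.n ×ˢ R.attach).filter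
      (fun x => (x.1, x.2.1) ∈ q.A) = B) := by
    by_contra hcon
    push Not at hcon
    apply hB
    apply Set.Subsingleton.countable
    rintro p ⟨hp, hp'⟩ q ⟨hq, hq'⟩
    by_contra hpq
    simp only [Prod.mk.injEq] at hp' hq'
    exact hcon p hp q hq hpq hp' hq'.1 hq'.2
  obtain ⟨p, hp, q, hq, hpq, ⟨hpn, hpB⟩, hqn, hqB⟩ := hex
  have hag : ∀ k < n, ∀ l ∈ R, ((k, l) ∈ p.A ↔ (k, l) ∈ q.A) := by
    intro k hk l hl
    have h1 : ((k, (⟨l, hl⟩ : R)) ∈ B ↔ (k, l) ∈ p.A) := by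
      rw [← hpB]
      simp [hpn, hk]
    have h2 : ((k, (⟨l, hl⟩ : R)) ∈ B ↔ (k, l) ∈ q.A) := by
      rw [← hqB]
      simp [hqn, hk]
    rw [← h1, h2]
  refine hA p (hJA hp) q (hJA hq) hpq ⟨⟨n, p.F ∪ q.F, {x | (x.2 ∈ p.F ∧ x ∈ p.A) ∨
    (x.2 ∈ q.F ∧ x ∈ q.A)}⟩, ?_, ?_⟩
  · refine ⟨hpn.le, Finset.subset_union_left, fun k hk l hl => ?_,
      fun k h1 h2 => absurd h2 (not_lt.2 (hpn ▸ h1))⟩
    constructor
    · rintro (⟨-, h⟩ | ⟨h, h'⟩)
      · exact h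
      · exact (hag k (hpn ▸ hk) l (hd p hp q hq hpq l hl h)).2 h'
    · intro h
      exact Or.inl ⟨hl, h⟩
  · refine ⟨hqn.le, Finset.subset_union_right, fun k hk l hl => ?_,
      fun k h1 h2 => absurd h2 (not_lt.2 (hqn ▸ h1))⟩
    constructor
    · rintro (⟨h, h'⟩ | ⟨-, h⟩)
      · exact (hag k (hqn ▸ hk) l (hd p hp q hq hpq l h hl)).1 h'
      · exact h
    · intro h
      exact Or.inr ⟨hl, h⟩

theorem extend (p : EC s) (F : Finset L) (w : W) (M : ℕ) : ∃ q : EC s, q ≤ p ∧ F ⊆ q.F ∧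
    ∃ k, M ≤ k ∧ k < q.n ∧ ∀ l ∈ F, ((k, l) ∈ q.A ↔ w ∈ s l) := by
  classical
  refine ⟨⟨max p.n M + 1, p.F ∪ F, {x | (x.1 < p.n ∧ x ∈ p.A) ∨ (p.n ≤ x.1 ∧ w ∈ s x.2)}⟩,
    ⟨(le_max_left _ _).trans (Nat.le_succ _), Finset.subset_union_left, fun k hk l _ => ?_,
      fun k h1 _ => ⟨w, fun l _ => ?_⟩⟩, Finset.subset_union_right, max p.n M, le_max_right _ _,
      Nat.lt_succ_self _, fun l _ => ?_⟩
  · simp only [mem_ofPred_eq]
    constructor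
    · rintro (h | h)
      · exact h.2
      · exact absurd hk (not_lt.2 h.1)
    · exact fun h => Or.inl ⟨hk, h⟩
  · simp only [mem_ofPred_eq]
    constructor
    · rintro (h | h)
      · exact absurd h.1 (not_lt.2 h1)
      · exact h.2
    · exact fun h => Or.inr ⟨h1, h⟩
  · simp only [mem_ofPred_eq]
    constructor
    · rintro (h | h)
      · exact absurd h.1 (not_lt.2 (le_max_left _ _))
      · exact h.2
    · exact fun h => Or.inr ⟨le_max_left _ _, h⟩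

end EC

theorem exists_rep {κ : Cardinal.{0}} (hMA : MartinAxiomCard κ) (hκ : ℵ₀ ≤ κ) {L W : Type}
    (hL : #L ≤ κ) (hW : #W ≤ κ) [Nonempty W] (s : L → Set W) :
    ∃ e : L → Set ℕ, (∀ F : Finset L, ∃ n, ∀ k, n ≤ k → ∃ w, ∀ l ∈ F, (k ∈ e l ↔ w ∈ s l)) ∧
      ∀ F : Finset L, ∀ w n, ∃ k, n ≤ k ∧ ∀ l ∈ F, (k ∈ e l ↔ w ∈ s l) := by
  classical
  have : Nonempty (EC s) := ⟨⟨0, ∅, ∅⟩⟩
  have hFL : #(Finset L) ≤ κ := by
    rcases finite_or_infinite L with hf | hi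
    · exact (Cardinal.mk_le_aleph0).trans hκ
    · rw [Cardinal.mk_finset_of_infinite]
      exact hL
  obtain ⟨G, hG1, hG2⟩ := martin_ccc hMA (EC s) EC.ccc (X := (Finset L × W) × ℕ)
    (by
      rw [mk_prod, mk_prod, Cardinal.lift_id, Cardinal.lift_id, Cardinal.lift_id,
        Cardinal.lift_id, mk_nat]
      exact mul_le_of_le hκ (mul_le_of_le hκ hFL hW) hκ)
    (fun z => {p | z.1.1 ⊆ p.F ∧ ∃ k, z.2 ≤ k ∧ k < p.n ∧
      ∀ l ∈ z.1.1, ((k, l) ∈ p.A ↔ z.1.2 ∈ s l)})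
    (by
      rintro ⟨⟨F, w⟩, M⟩ p
      obtain ⟨q, hq1, hq2, hq3⟩ := EC.extend p F w M
      exact ⟨q, ⟨hq2, hq3⟩, hq1⟩)
  let w0 : W := Classical.arbitrary W
  let e : L → Set ℕ := fun l => {k | ∃ p ∈ G, l ∈ p.F ∧ k < p.n ∧ (k, l) ∈ p.A}
  have he : ∀ p ∈ G, ∀ l ∈ p.F, ∀ k < p.n, (k ∈ e l ↔ (k, l) ∈ p.A) := by
    intro p hp l hl k hk
    constructor
    · rintro ⟨q, hq, hlq, hkq, hA⟩
      obtain ⟨r, -, hrp, hrq⟩ := hG1 p hp q hq
      exact (hrp.2.2.1 k hk l hl).1 ((hrq.2.2.1 k hkq l hlq).2 hA)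
    · intro h
      exact ⟨p, hp, hl, hk, h⟩
  refine ⟨e, fun F => ?_, fun F w M => ?_⟩
  · obtain ⟨p, hp, hF, -⟩ := hG2 ((F, w0), 0)
    refine ⟨p.n, fun k hk => ?_⟩
    obtain ⟨p', hp', -, k', hk', hk'', -⟩ := hG2 ((∅, w0), k)
    obtain ⟨r, hr, hrp, hrp'⟩ := hG1 p hp p' hp'
    have hkr : k < r.n := (hk'.trans_lt hk'').trans_le hrp'.1
    obtain ⟨w, hw⟩ := hrp.2.2.2 k hk hkr
    refine ⟨w, fun l hl => ?_⟩
    rw [he r hr l (hrp.2.1 (hF hl)) k hkr, hw l (hF hl)]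
  · obtain ⟨p, hp, hF, k, hk, hk', hkA⟩ := hG2 ((F, w), M)
    refine ⟨k, hk, fun l hl => ?_⟩
    rw [he p hp l (hF hl) k hk', hkA l hl]

end Pool.Agent.U69.CI
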