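import Pool.Agent.U69.CI.Chain

/-!
# The dominating number of `ω₁` in ccc extensions
-/

set_option autoImplicit false

namespace Pool.Agent.U69.CI

open Cardinal Set Pool.Agent.W684.FM Pool.Agent.Helper669.Forcing

/-- The dominating number of `ω₁` is at most `ℵ₂`: some family of functions from `ω₁` to `ω₁`,
indexed by `ω₂`, dominates every function from `ω₁` to `ω₁`. -/
def DomOm1 : Prop :=
  ∃ F : Om2 → Om1 → Om1, ∀ h : Om1 → Om1, ∃ ν, ∀ i, h i ≤ F ν i

/-- The sentence of the forcing language which expresses `DomOm1`; functions from `ω₁` to `ω₁` are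
given by names of their graphs. -/
def DomOm1Holds (P : Type) [Preorder P] : Set P :=
  fex fun F : Om2 → Om1 → Om1 → Set P => fand (fall fun ν => IsFun (F ν))
    (fall fun h : Om1 → Om1 → Set P => fimp (IsFun h) (fex fun ν => fall fun i =>
      fex fun x => fex fun y =>
        fand (meets (h i x)) (fand (meets (F ν i y)) (fground (x ≤ y)))))

/-- `2^{ℵ₁} = ℵ₂` implies `DomOm1`. -/
theorem domOm1_of_power (h : (2 : Cardinal.{0}) ^ (ℵ₁ : Cardinal.{0}) = ℵ_ 2) : DomOm1 := by
  have h1 : #(Om1 → Om1) ≤ #Om2 := by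
    rw [← Cardinal.power_def, Cardinal.mk_ord_toType, Cardinal.mk_ord_toType,
      Cardinal.power_self_eq (Cardinal.aleph0_le_aleph 1), h]
  obtain ⟨g⟩ := h1
  refine ⟨Function.invFun g, fun h => ?_⟩
  obtain ⟨ν, hν⟩ := Function.invFun_surjective g.injective h
  exact ⟨ν, fun i => by rw [hν]⟩

theorem domHolds {P : Type} [Preorder P] (hP : PCCC P) (h2 : DomOm1) (p : P) :
    p ∈ DomOm1Holds P := by
  classical
  obtain ⟨E, hE⟩ := h2
  refine mem_fex_of_mem (fun ν i y => fground (y = E ν i)) (down_fand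
    (down_fall fun _ => down_IsFun _) (down_fall fun _ => down_fimp _ _)) ⟨fun ν => ⟨fun x => ?_,
      fun x y y' => ?_⟩, fun h => ?_⟩
  · exact mem_fex_of_mem (E ν x) (down_meets _) (meets_of_mem (mem_fground.2 rfl))
  · rw [mem_fimp]
    rintro q - ⟨h1, h3⟩
    refine ⟨q, le_rfl, ?_⟩
    obtain ⟨_, -, h4⟩ := exists_of_meets (down_fground _) h1
    obtain ⟨_, -, h5⟩ := exists_of_meets (down_fground _) h3
    rw [mem_fground] at h4 h5
    rw [mem_fground, h4, h5]
  · rw [mem_fimp]
    intro q _ hq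
    refine ⟨q, le_rfl, ?_⟩
    have hb : ∀ i, ∃ b : Om1, ∀ x, (∃ r ≤ q, r ∈ meets (h i x)) → x ≤ b := by
      intro i
      let V : Set Om1 := {x | ∃ r ≤ q, r ∈ meets (h i x)}
      have hV : ∀ x : V, ∃ r ≤ q, r ∈ meets (h i x) := fun x => x.2
      choose r hr1 hr2 using hV
      have hcomp : ∀ x y : V, ∀ s, s ≤ r x → s ≤ r y → x = y := by
        intro x y s h1 h3
        exact Subtype.ext (IsFun.unique (down_IsFun h q hq s (h1.trans (hr1 x)))
          (down_meets _ _ (hr2 x) s h1) (down_meets _ _ (hr2 y) s h3))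
      have hinj : Function.Injective r := fun x y hxy => hcomp x y (r x) le_rfl (by rw [hxy])
      have hc : (range r).Countable := by
        apply hP
        rintro _ ⟨x, rfl⟩ _ ⟨y, rfl⟩ hne ⟨s, h1, h3⟩
        exact hne (by rw [hcomp x y s h1 h3])
      have hVc : V.Countable := by
        have : Countable V := by
          rw [← Set.countable_univ_iff]
          exact Set.countable_of_injective_of_countable_image (f := r) (s := Set.univ)
            hinj.injOn (by rwa [Set.image_univ])
        exact Set.countable_coe_iff.1 this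
      obtain ⟨b, hb⟩ := exists_lt_of_countable hVc
      exact ⟨b, fun x hx => (hb x hx).le⟩
    choose b hb using hb
    obtain ⟨ν, hν⟩ := hE b
    refine mem_fex_of_mem ν (down_fall fun _ => down_fex _) fun i => ?_
    rw [mem_fex]
    intro q' hq'
    obtain ⟨s, hs, x, hx⟩ := IsFun.total (down_IsFun h q hq q' hq') i
    refine ⟨s, hs, x, mem_fex_of_mem (E ν i) (down_fand (down_meets _) (down_fand (down_meets _)
      (down_fground _))) ⟨hx, meets_of_mem (mem_fground.2 rfl), ?_⟩⟩
    rw [mem_fground]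
    exact (hb i x ⟨s, hs.trans hq', hx⟩).trans (hν i)

/-- If the dominating number of `ω₁` is at most `ℵ₂` (for example, if `2^{ℵ₁} = ℵ₂`), then some
forcing notion preserves all cardinals and forces Martin's axiom for `ℵ₂` dense sets, and that the
dominating number of `ω₁` is at most `ℵ₂`. -/
theorem exists_forcing (h2 : DomOm1) :
    ∃ (P : Type) (_ : Preorder P), Nonempty P ∧ ∀ p : P,
      p ∈ CardinalsPreserved.{0, 0} P ∧ p ∈ OmegaOnePreserved P ∧ p ∈ MartinHolds P Om2 ∧
        p ∈ DomOm1Holds P := by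
  have : Infinite Om2 := by
    rw [Cardinal.infinite_iff, Cardinal.mk_ord_toType]
    exact Cardinal.aleph0_le_aleph _
  refine ⟨PP Om2 (Order.succ #Om2).ord.ToType, inferInstance, ⟨⟨∅, valid_empty _⟩⟩, fun p => ?_⟩
  exact ⟨pccc.cardinalsPreserved p, pccc.omegaOnePreserved p, martinHolds (bdd_succ Om2) p,
    domHolds pccc h2 p⟩

end Pool.Agent.U69.CI
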