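import Pool.Agent.U69.CI.Main
import Pool.Agent.U69.CI.Force

/-!
# The three ideals on the Cantor space
-/

set_option autoImplicit false

namespace Pool.Agent.U69.CI

open Cardinal Set Filter Pool.Agent.W684.FM

/-- transport of Borel σ-ideals -/
theorem tr_borel {Y : Type} [MeasurableSpace Y] (φ : Y ≃ᵐ Cx) {I : Set (Set Y)}
    (hI : IsSigmaIdeal I) (hB : ∀ A ∈ I, ∃ B ∈ I, A ⊆ B ∧ MeasurableSet B) :
    IsBorelSigmaIdeal (tr φ.toEquiv I) := by
  refine ⟨tr_sigmaIdeal _ hI, fun A hA => ?_⟩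
  obtain ⟨B, hB1, hB2, hB3⟩ := hB _ hA
  refine ⟨φ.toEquiv.symm ⁻¹' B, ?_, ?_, ?_⟩
  · show φ.toEquiv ⁻¹' (φ.toEquiv.symm ⁻¹' B) ∈ I
    have : φ.toEquiv ⁻¹' (φ.toEquiv.symm ⁻¹' B) = B := by
      ext x; simp
    rwa [this]
  · intro x hx
    apply hB2
    show φ.toEquiv (φ.toEquiv.symm x) ∈ A
    rwa [Equiv.apply_symm_apply]
  · rw [← BorelSpace.measurable_eq (α := Cx)]
    exact φ.symm.measurable hB3

theorem tr_univ {X Y : Type} (φ : X ≃ Y) {I : Set (Set X)} (h : (Set.univ : Set X) ∉ I) :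
    (Set.univ : Set Y) ∉ tr φ I := by
  intro h'
  exact h h'

theorem not_countable_Cx : ¬ Countable Cx := by
  rw [← Cardinal.mk_le_aleph0_iff, not_le]
  have : #Cx = 𝔠 := by
    simp [Cx]
  rw [this]
  exact Cardinal.aleph0_lt_continuum

theorem not_countable_prod {B : Type} [Nonempty B] : ¬ Countable (B × Cx) := by
  intro h
  obtain ⟨b⟩ : Nonempty B := inferInstance
  exact not_countable_Cx (Function.Injective.countable (Prod.mk_right_injective (β := Cx) b))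

/-- All data. -/
theorem exists_data (hMA : MartinAxiomCard (ℵ_ 2)) (hd : DomOm1) :
    ∃ (F : Om2 → Om1 → Om1) (c : Om2 → Pr) (E A : Om1 → Set ℕ) (B : Om2 → ℕ → Set ℕ),
      Dom F ∧ Tower F c ∧ Sys c E A B ∧ Bdd1 := by
  obtain ⟨F, hF⟩ := hd
  obtain ⟨c, hc⟩ := exists_tower F
  obtain ⟨E, A, B, hS⟩ := exists_sys hMA c
  exact ⟨F, c, E, A, B, hF, hc, hS, bdd1 hMA⟩

theorem univ_not_Gen {F : Om2 → Om1 → Om1} {c : Om2 → Pr} {E A : Om1 → Set ℕ}
    {B : Om2 → ℕ → Set ℕ} (hc : Tower F c) (hS : Sys c E A B) (ν : Om2) (γ : Om1) (g : ℕ → ℕ) :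
    ∃ x, x ∉ Gen E B 0 ν γ g := by
  obtain ⟨μ, hμ⟩ := exists_gt_om2 ν
  by_contra hcon
  push Not at hcon
  exact not_Gen hc hS hμ γ g fun x _ => hcon x

theorem main_a (hMA : MartinAxiomCard (ℵ_ 2)) (hd : DomOm1) :
    ∃ I : Set (Set (ℕ → Bool)), IsBorelSigmaIdeal I ∧ (∀ x, {x} ∈ I) ∧ Set.univ ∉ I ∧
      cofinStar I = om1 ∧ cofinMinus I = om2 ∧ cofin I = om2 ∧ cofinPlus I = om2 := by
  obtain ⟨F, c, E, A, B, hF, hc, hS, hb⟩ := exists_data hMA hd
  have hI := Row_sigma hc hS 0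
  obtain ⟨w0⟩ : Nonempty Om1 := inferInstance
  obtain ⟨ν0⟩ : Nonempty Om2 := inferInstance
  refine ⟨Row E B 0, ⟨hI, ?_⟩, ?_, ?_, ?_, ?_, ?_, ?_⟩
  · rintro X ⟨ν, γ, g, h⟩
    refine ⟨Gen E B 0 ν γ g, ⟨ν, γ, g, Subset.rfl⟩, h, ?_⟩
    rw [← BorelSpace.measurable_eq (α := Cx)]
    exact measurable_Gen E B 0 ν γ g
  · intro x
    obtain ⟨g, hg⟩ := singleton_mem (E := E) (B := B) x ν0 w0 0
    exact ⟨ν0, w0, g, singleton_subset_iff.2 hg⟩
  · rintro ⟨ν, γ, g, h⟩
    obtain ⟨x, hx⟩ := univ_not_Gen hc hS ν γ g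
    exact hx (h (mem_univ x))
  · exact le_antisymm (row_cofinStar_le hc hS) (om1_le_cofinStar hI)
  · exact le_antisymm (((cofinMinus_le_cofin _).trans (cofin_le_cofinPlus _)).trans
      (row_cofinPlus_le hc hS)) (row_le_cofinMinus hc hF hS hb)
  · exact le_antisymm ((cofin_le_cofinPlus _).trans (row_cofinPlus_le hc hS))
      ((row_le_cofinMinus hc hF hS hb).trans (cofinMinus_le_cofin _))
  · exact le_antisymm (row_cofinPlus_le hc hS) ((row_le_cofinMinus hc hF hS hb).trans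
      ((cofinMinus_le_cofin _).trans (cofin_le_cofinPlus _)))

theorem main_b (hMA : MartinAxiomCard (ℵ_ 2)) (hd : DomOm1) :
    ∃ I : Set (Set (ℕ → Bool)), IsBorelSigmaIdeal I ∧ (∀ x, {x} ∈ I) ∧ Set.univ ∉ I ∧
      cofinStar I = om1 ∧ cofinMinus I = om1 ∧ cofin I = om2 ∧ cofinPlus I = om2 := by
  obtain ⟨F, c, E, A, B, hF, hc, hS, hb⟩ := exists_data hMA hd
  have hI := GI_sigma (dir_Gen2 hc hS)
  obtain ⟨w0⟩ : Nonempty Om1 := inferInstance
  obtain ⟨ν0⟩ : Nonempty Om2 := inferInstance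
  let φ : ℕ × Cx ≃ᵐ Cx :=
    PolishSpace.measurableEquivOfNotCountable not_countable_prod not_countable_Cx
  refine ⟨tr φ.toEquiv (GI (Gen2 E B)), tr_borel φ hI ?_, tr_singleton _ ?_, tr_univ _ ?_, ?_, ?_,
    ?_, ?_⟩
  · rintro X ⟨ν, γ, g, h⟩
    exact ⟨Gen2 E B ν γ g, ⟨ν, γ, g, Subset.rfl⟩, h, measurable_Gen2 ν γ g⟩
  · intro y
    obtain ⟨g, hg⟩ := singleton_mem (E := E) (B := B) y.2 ν0 w0 y.1
    exact ⟨ν0, w0, g, singleton_subset_iff.2 hg⟩
  · rintro ⟨ν, γ, g, h⟩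
    obtain ⟨x, hx⟩ := univ_not_Gen hc hS ν γ g
    exact hx (h (mem_univ ((0 : ℕ), x)))
  · rw [cofinStar_tr]
    exact le_antisymm ((cofinStar_le_cofinMinus _).trans (second_cofinMinus_le hc hS))
      (om1_le_cofinStar hI)
  · rw [cofinMinus_tr]
    exact le_antisymm (second_cofinMinus_le hc hS)
      ((om1_le_cofinStar hI).trans (cofinStar_le_cofinMinus _))
  · rw [cofin_tr]
    exact le_antisymm ((cofin_le_cofinPlus _).trans (second_cofinPlus_le hc hS))
      (second_le_cofin hc hF hS hb)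
  · rw [cofinPlus_tr]
    exact le_antisymm (second_cofinPlus_le hc hS)
      ((second_le_cofin hc hF hS hb).trans (cofin_le_cofinPlus _))

theorem main_c (hMA : MartinAxiomCard (ℵ_ 2)) (hd : DomOm1) :
    ∃ I : Set (Set (ℕ → Bool)), IsBorelSigmaIdeal I ∧ (∀ x, {x} ∈ I) ∧ Set.univ ∉ I ∧
      cofinStar I = om1 ∧ cofinMinus I = om1 ∧ cofin I = om1 ∧ cofinPlus I = om2 := by
  obtain ⟨F, c, E, A, B, hF, hc, hS, hb⟩ := exists_data hMA hd
  have hI := I3_sigma (Row_sigma hc hS 0)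
  obtain ⟨w0⟩ : Nonempty Om1 := inferInstance
  obtain ⟨ν0⟩ : Nonempty Om2 := inferInstance
  let φ : Bool × Cx ≃ᵐ Cx :=
    PolishSpace.measurableEquivOfNotCountable not_countable_prod not_countable_Cx
  have hle := third_cofin_le (Row_sigma hc hS 0)
  refine ⟨tr φ.toEquiv (I3 (Row E B 0)), tr_borel φ hI ?_, tr_singleton _ ?_, tr_univ _ ?_, ?_, ?_,
    ?_, ?_⟩
  · rintro X ⟨h1, ν, γ, g, h2⟩
    refine ⟨({false} : Set Bool) ×ˢ (Prod.mk false ⁻¹' X) ∪ ({true} : Set Bool) ×ˢ Gen E B 0 ν γ g,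
      ⟨?_, ?_⟩, ?_, ?_⟩
    · refine h1.mono fun x hx => ?_
      simpa using hx
    · refine ⟨ν, γ, g, fun x hx => ?_⟩
      simpa using hx
    · rintro ⟨b, x⟩ hx
      cases b
      · exact Or.inl ⟨rfl, hx⟩
      · exact Or.inr ⟨rfl, h2 hx⟩
    · exact ((measurableSet_singleton false).prod h1.measurableSet).union
        ((measurableSet_singleton true).prod (measurable_Gen E B 0 ν γ g))
  · intro y
    refine ⟨(Subsingleton.countable ?_), ?_⟩
    · intro x hx x' hx'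
      simp only [mem_preimage, mem_singleton_iff] at hx hx'
      rw [← hx'] at hx
      exact (Prod.mk.inj hx).2
    · obtain ⟨g, hg⟩ := singleton_mem (E := E) (B := B) y.2 ν0 w0 0
      refine ⟨ν0, w0, g, fun x hx => ?_⟩
      simp only [mem_preimage, mem_singleton_iff] at hx
      rw [← hx] at hg
      exact hg
  · rintro ⟨-, ν, γ, g, h⟩
    obtain ⟨x, hx⟩ := univ_not_Gen hc hS ν γ g
    exact hx (h (mem_univ x))
  · rw [cofinStar_tr]
    exact le_antisymm (((cofinStar_le_cofinMinus _).trans (cofinMinus_le_cofin _)).trans hle)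
      (om1_le_cofinStar hI)
  · rw [cofinMinus_tr]
    exact le_antisymm ((cofinMinus_le_cofin _).trans hle)
      ((om1_le_cofinStar hI).trans (cofinStar_le_cofinMinus _))
  · rw [cofin_tr]
    exact le_antisymm hle ((om1_le_cofinStar hI).trans
      ((cofinStar_le_cofinMinus _).trans (cofinMinus_le_cofin _)))
  · rw [cofinPlus_tr]
    exact le_antisymm (third_cofinPlus_le hc hS) (third_le_cofinPlus hc hF hS hb)

/-- the σ-ideal of the countable sets -/
theorem main_zfc :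
    ∃ I : Set (Set (ℕ → Bool)), IsBorelSigmaIdeal I ∧ (∀ x, {x} ∈ I) ∧ Set.univ ∉ I ∧
      cofin I = om1 ∧ cofinPlus I = ⊤ := by
  have hI : IsSigmaIdeal {A : Set Cx | A.Countable} :=
    sigma_of countable_empty (fun A hA B hB => Set.Countable.mono hB hA)
      fun A hA => countable_iUnion hA
  refine ⟨{A | A.Countable}, ⟨hI, ?_⟩, fun x => countable_singleton x, ?_, ?_, ?_⟩
  · intro A hA
    refine ⟨A, hA, Subset.rfl, ?_⟩
    rw [← BorelSpace.measurable_eq (α := Cx)]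
    exact Set.Countable.measurableSet hA
  · intro h
    exact not_countable_Cx (Set.countable_univ_iff.1 h)
  · refine le_antisymm ?_ ((om1_le_cofinStar hI).trans
      ((cofinStar_le_cofinMinus _).trans (cofinMinus_le_cofin _)))
    obtain ⟨p, hp⟩ := exists_points
    exact cofin_le_of_points hI p hp (fun w => countable_singleton _)
      (fun A hA => Set.Countable.preimage hA hp)
  · refine least_eq_top ?_
    ext γ
    simp only [mem_ofPred_eq, mem_empty_iff_false, iff_false, not_exists, not_and]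
    intro J hJ h0
    have hγ : (0 : Ordinal.{0}) < γ := by
      have := hJ.1.bot_lt
      rwa [Ordinal.bot_eq_zero] at this
    obtain ⟨A, hA, hA'⟩ := hJ.exists_notMem hγ
    exact hA' (countable_mem (hJ.2.1 0 hγ) h0 hA)

end Pool.Agent.U69.CI
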