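import Pool.Agent.U69.CI.Row

/-!
# General facts on towers of ideals
-/

set_option autoImplicit false

namespace Pool.Agent.U69.CI

open Cardinal Set Filter Pool.Agent.W684.FM

section General

variable {X : Type}

theorem sigma_of {I : Set (Set X)} (h0 : ∅ ∈ I) (hh : IsHereditary I)
    (hs : ∀ A : ℕ → Set X, (∀ n, A n ∈ I) → ⋃ n, A n ∈ I) : IsSigmaIdeal I := by
  classical
  refine ⟨⟨h0, hh, fun U hU V hV => ?_⟩, hs⟩
  have : U ∪ V = ⋃ j : ℕ, (fun j => if j = 0 then U else V) j := by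
    ext x
    simp only [mem_union, mem_iUnion]
    constructor
    · rintro (h | h)
      · exact ⟨0, by simpa using h⟩
      · exact ⟨1, by simpa using h⟩
    · rintro ⟨j, hj⟩
      split_ifs at hj
      · exact Or.inl hj
      · exact Or.inr hj
  rw [this]
  refine hs _ fun j => ?_
  split_ifs
  · exact hU
  · exact hV

theorem IsTower.mono {Φ : Set (Set X) → Prop} {I : Set (Set X)} {γ : Ordinal.{0}}
    {J : Ordinal.{0} → Set (Set X)} (h : IsTower Φ I γ J) {α β : Ordinal.{0}} (h1 : α ≤ β)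
    (h2 : β < γ) : J α ⊆ J β := by
  rcases h1.eq_or_lt with rfl | h1
  · exact Subset.rfl
  · exact (h.2.2.2 α β h1 h2).1

/-- No term of the sequence is the whole ideal. -/
theorem IsTower.exists_notMem {Φ : Set (Set X) → Prop} {I : Set (Set X)} {γ : Ordinal.{0}}
    {J : Ordinal.{0} → Set (Set X)} (h : IsTower Φ I γ J) {α : Ordinal.{0}} (h1 : α < γ) :
    ∃ A ∈ I, A ∉ J α := by
  have h2 : Order.succ α < γ := h.1.succ_lt h1
  obtain ⟨-, h4⟩ := h.2.2.2 α _ (Order.lt_succ α) h2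
  obtain ⟨A, hA, hA'⟩ := Set.not_subset.1 h4
  exact ⟨A, (h.2.2.1 A).2 ⟨_, h2, hA⟩, hA'⟩

/-- The length of the sequence has uncountable cofinality. -/
theorem IsTower.bounded {Φ : Set (Set X) → Prop} (hΦ : ∀ I, Φ I → IsHereditary I)
    {I : Set (Set X)} (hI : IsSigmaIdeal I) {γ : Ordinal.{0}}
    {J : Ordinal.{0} → Set (Set X)} (h : IsTower Φ I γ J) (f : ℕ → Ordinal.{0})
    (hf : ∀ j, f j < γ) : ∃ β < γ, ∀ j, f j ≤ β := by
  by_contra hcon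
  push Not at hcon
  choose A hA1 hA2 using fun j => h.exists_notMem (hf j)
  obtain ⟨β, hβ, hβA⟩ := (h.2.2.1 _).1 (hI.2 A hA1)
  obtain ⟨j, hj⟩ := hcon β hβ
  exact hA2 j (h.mono hj.le (hf j) (hΦ _ (h.2.1 β hβ) _ hβA _ (subset_iUnion A j)))

theorem om1_le_cofinStar {I : Set (Set X)} (hI : IsSigmaIdeal I) :
    (((ℵ₁ : Cardinal.{0}).ord : Ordinal.{0}) : WithTop Ordinal.{0}) ≤ cofinStar I := by
  refine le_least ?_
  rintro γ ⟨J, hJ⟩
  by_contra hcon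
  push Not at hcon
  have h1 : #γ.ToType ≤ ℵ₀ := by
    rw [mk_toType]
    rw [Cardinal.lt_ord, ← Cardinal.succ_aleph0, Order.lt_succ_iff] at hcon
    exact hcon
  have h2 : (0 : Ordinal.{0}) < γ := by
    have := hJ.1.bot_lt
    rwa [Ordinal.bot_eq_zero] at this
  have : Countable γ.ToType := Cardinal.mk_le_aleph0_iff.1 h1
  have : Nonempty γ.ToType := ⟨Ordinal.ToType.mk ⟨0, h2⟩⟩
  obtain ⟨e, he⟩ := exists_surjective_nat γ.ToType
  obtain ⟨β, hβ, hβ'⟩ := hJ.bounded (fun _ h => h) hI (fun j => (Ordinal.ToType.mk.symm (e j)).1)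
    (fun j => (Ordinal.ToType.mk.symm (e j)).2)
  obtain ⟨j, hj⟩ := he (Ordinal.ToType.mk ⟨Order.succ β, hJ.1.succ_lt hβ⟩)
  have h3 := hβ' j
  rw [hj, OrderIso.symm_apply_apply] at h3
  exact absurd (Order.lt_succ β) (not_lt.2 h3)

theorem cofinStar_le_cofinMinus (I : Set (Set X)) : cofinStar I ≤ cofinMinus I :=
  least_mono fun _ ⟨J, h1, h2, h3⟩ => ⟨J, h1, fun α hα => (h2 α hα).2.1, h3⟩

theorem cofinMinus_le_cofin (I : Set (Set X)) : cofinMinus I ≤ cofin I :=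
  least_mono fun _ ⟨J, h1, h2, h3⟩ => ⟨J, h1, fun α hα => (h2 α hα).1, h3⟩

theorem cofin_le_cofinPlus (I : Set (Set X)) : cofin I ≤ cofinPlus I :=
  least_mono fun _ ⟨J, h, _⟩ => ⟨J, h⟩

/-- A tower indexed by the initial ordinal of an infinite cardinal number. -/
theorem tower_of_type {Φ : Set (Set X) → Prop} {I : Set (Set X)} {κ : Cardinal.{0}}
    (hκ : ℵ₀ ≤ κ) (J : κ.ord.ToType → Set (Set X)) (hΦ : ∀ w, Φ (J w))
    (hU : ∀ A, A ∈ I ↔ ∃ w, A ∈ J w) (hm : ∀ w w', w < w' → J w ⊆ J w')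
    (hs : ∀ w w', w < w' → ∃ A ∈ J w', A ∉ J w) :
    ∃ J', IsTower Φ I κ.ord J' ∧ ((∀ w x, {x} ∈ J w) → ∀ x, {x} ∈ J' 0) := by
  classical
  have hlim : Order.IsSuccLimit κ.ord := Cardinal.isSuccLimit_ord hκ
  have h0 : (0 : Ordinal.{0}) < κ.ord := by
    have := hlim.bot_lt
    rwa [Ordinal.bot_eq_zero] at this
  refine ⟨fun α => if h : α < κ.ord then J (Ordinal.ToType.mk ⟨α, h⟩) else ∅,
    ⟨hlim, fun α hα => ?_, fun A => ?_, fun α β hαβ hβ => ?_⟩, fun h x => ?_⟩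
  · simp only [dif_pos hα]
    exact hΦ _
  · rw [hU]
    constructor
    · rintro ⟨w, hw⟩
      refine ⟨(Ordinal.ToType.mk.symm w).1, (Ordinal.ToType.mk.symm w).2, ?_⟩
      have h1 : (Ordinal.ToType.mk.symm w).1 < κ.ord := (Ordinal.ToType.mk.symm w).2
      simp only [dif_pos h1]
      have h2 : Ordinal.ToType.mk ⟨(Ordinal.ToType.mk.symm w).1, h1⟩ = w :=
        OrderIso.apply_symm_apply _ w
      rwa [h2]
    · rintro ⟨α, hα, h⟩
      simp only [dif_pos hα] at h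
      exact ⟨_, h⟩
  · have hα : α < κ.ord := hαβ.trans hβ
    simp only [dif_pos hα, dif_pos hβ]
    have hlt : Ordinal.ToType.mk ⟨α, hα⟩ < Ordinal.ToType.mk (o := κ.ord) ⟨β, hβ⟩ :=
      Ordinal.ToType.mk.lt_iff_lt.2 hαβ
    refine ⟨hm _ _ hlt, fun hcon => ?_⟩
    obtain ⟨A, hA, hA'⟩ := hs _ _ hlt
    exact hA' (hcon hA)
  · simp only [dif_pos h0]
    exact h _ x

/-- A σ-ideal to which all singletons of a family of `ℵ₁` points belong, and every member of which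
contains only countably many of these points. -/
theorem cofin_le_of_points {I : Set (Set X)} (hI : IsSigmaIdeal I) (p : Om1 → X)
    (hp : Function.Injective p) (hp1 : ∀ w, {p w} ∈ I) (hp2 : ∀ A ∈ I, {w | p w ∈ A}.Countable) :
    cofin I ≤ (((ℵ₁ : Cardinal.{0}).ord : Ordinal.{0}) : WithTop Ordinal.{0}) := by
  have h1 : ∀ w : Om1, IsSigmaIdeal {A | A ∈ I ∧ ∀ i, w ≤ i → p i ∉ A} := by
    intro w
    refine sigma_of ⟨hI.1.1, fun i _ => notMem_empty _⟩ ?_ ?_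
    · rintro A ⟨hA, hA'⟩ B hB
      exact ⟨hI.1.2.1 A hA B hB, fun i hi h => hA' i hi (hB h)⟩
    · intro A hA
      refine ⟨hI.2 A fun n => (hA n).1, fun i hi h => ?_⟩
      obtain ⟨n, hn⟩ := mem_iUnion.1 h
      exact (hA n).2 i hi hn
  have h2 : ∀ A, A ∈ I ↔ ∃ w : Om1, A ∈ {A | A ∈ I ∧ ∀ i, w ≤ i → p i ∉ A} := by
    intro A
    constructor
    · intro hA
      obtain ⟨a, ha⟩ := exists_lt_of_countable (hp2 A hA)
      exact ⟨a, hA, fun i hi h => absurd (ha i h) (not_lt.2 hi)⟩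
    · rintro ⟨w, hA, -⟩
      exact hA
  obtain ⟨J', hJ', -⟩ := tower_of_type (Φ := IsSigmaIdeal) (I := I) (κ := ℵ₁)
    (Cardinal.aleph0_le_aleph 1) (fun w => {A | A ∈ I ∧ ∀ i, w ≤ i → p i ∉ A}) h1 h2
    (fun w w' h A hA => ⟨hA.1, fun i hi => hA.2 i (h.le.trans hi)⟩)
    (fun w w' h => by
      refine ⟨{p w}, ⟨hp1 w, fun i hi hi' => ?_⟩, fun hcon => hcon.2 w le_rfl (mem_singleton _)⟩
      have := hp (mem_singleton_iff.1 hi')
      rw [this] at hi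
      exact absurd h (not_lt.2 hi))
  exact least_le ⟨J', hJ'⟩

end General

/-- Passing from a family of ideals indexed by the ordinals below `γ` to one indexed by `ω₁`. -/
theorem stage {X : Type} {R : Set (Set X)}
    (hR : ∀ J : Om1 → Set (Set X), (∀ δ, IsIdeal (J δ)) → (∀ δ δ', δ ≤ δ' → J δ ⊆ J δ') →
      (∀ A ∈ R, ∃ δ, A ∈ J δ) → ∃ δ, ∀ A ∈ R, A ∈ J δ)
    {γ : Ordinal.{0}} (hγ0 : 0 < γ) (hγ : γ < (ℵ_ 2).ord)
    (hb : ∀ f : ℕ → Ordinal.{0}, (∀ j, f j < γ) → ∃ β < γ, ∀ j, f j ≤ β)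
    (J : Ordinal.{0} → Set (Set X)) (hJ : ∀ α < γ, IsIdeal (J α))
    (hm : ∀ α β, α ≤ β → β < γ → J α ⊆ J β) (hU : ∀ A ∈ R, ∃ α < γ, A ∈ J α) :
    ∃ α < γ, ∀ A ∈ R, A ∈ J α := by
  classical
  have h1 : #γ.ToType ≤ #Om1 := by
    rw [mk_toType, Cardinal.mk_ord_toType]
    rw [Cardinal.lt_ord, aleph2_eq, Order.lt_succ_iff] at hγ
    exact hγ
  have hne : Nonempty γ.ToType := ⟨Ordinal.ToType.mk ⟨0, hγ0⟩⟩
  obtain ⟨m, hm'⟩ : ∃ m : Om1 → γ.ToType, Function.Surjective m := by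
    obtain ⟨g⟩ := h1
    exact ⟨Function.invFun g, Function.invFun_surjective g.injective⟩
  let h : Om1 → Ordinal.{0} := fun w => (Ordinal.ToType.mk.symm (m w)).1
  have hh : ∀ w, h w < γ := fun w => (Ordinal.ToType.mk.symm (m w)).2
  have hh' : ∀ α < γ, ∃ w, h w = α := by
    intro α hα
    obtain ⟨w, hw⟩ := hm' (Ordinal.ToType.mk ⟨α, hα⟩)
    refine ⟨w, ?_⟩
    show (Ordinal.ToType.mk.symm (m w)).1 = α
    rw [hw, OrderIso.symm_apply_apply]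
  obtain ⟨δ, hδ⟩ := hR (fun δ => {A | ∃ j ≤ δ, A ∈ J (h j)}) (by
      intro δ
      refine ⟨⟨δ, le_rfl, (hJ _ (hh δ)).1⟩, ?_, ?_⟩
      · rintro A ⟨j, hj, hA⟩ B hB
        exact ⟨j, hj, (hJ _ (hh j)).2.1 A hA B hB⟩
      · rintro A ⟨j, hj, hA⟩ B ⟨j', hj', hB⟩
        rcases le_total (h j) (h j') with hle | hle
        · exact ⟨j', hj', (hJ _ (hh j')).2.2 A (hm _ _ hle (hh j') hA) B hB⟩
        · exact ⟨j, hj, (hJ _ (hh j)).2.2 A hA B (hm _ _ hle (hh j) hB)⟩) (by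
      rintro δ δ' hδ A ⟨j, hj, hA⟩
      exact ⟨j, hj.trans hδ, hA⟩) (by
      intro A hA
      obtain ⟨α, hα, hAα⟩ := hU A hA
      obtain ⟨j, rfl⟩ := hh' α hα
      exact ⟨j, j, le_rfl, hAα⟩)
  obtain ⟨e, he⟩ := (countable_Iic δ).exists_eq_range ⟨δ, mem_Iic.2 le_rfl⟩
  obtain ⟨β, hβ, hβ'⟩ := hb (fun j => h (e j)) fun j => hh _
  refine ⟨β, hβ, fun A hA => ?_⟩
  obtain ⟨j, hj, hAj⟩ := hδ A hA
  have hj' : j ∈ range e := by
    rw [← he]
    exact hj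
  obtain ⟨i, rfl⟩ := hj'
  exact hm _ _ (hβ' i) hβ hAj

end Pool.Agent.U69.CI
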