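import Pool.Agent.U69.CI.Gen

/-!
# The three ideals
-/

set_option autoImplicit false

namespace Pool.Agent.U69.CI

open Cardinal Set Filter Pool.Agent.W684.FM

/-- The ordinal `ω₁`. -/
noncomputable abbrev om1 : WithTop Ordinal.{0} := (((ℵ₁ : Cardinal.{0}).ord : Ordinal.{0}) :)

/-- The ordinal `ω₂`. -/
noncomputable abbrev om2 : WithTop Ordinal.{0} := (((ℵ_ 2 : Cardinal.{0}).ord : Ordinal.{0}) :)

instance : Nonempty Om2 := by
  rw [← Cardinal.mk_ne_zero_iff, Cardinal.mk_ord_toType]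
  exact (Cardinal.aleph_pos _).ne'

/-! ### Ideals generated by directed families -/

section Directed

variable {Y : Type} (U : Om2 → Om1 → (ℕ → ℕ) → Set Y)

/-- countably many members are covered by one with prescribed first coordinate -/
def Dir : Prop := ∀ (ν : ℕ → Om2) (γ : ℕ → Om1) (g : ℕ → ℕ → ℕ) (ν' : Om2), (∀ j, ν j ≤ ν') →
  ∃ γ' g', ∀ j, U (ν j) (γ j) (g j) ⊆ U ν' γ' g'

/-- the ideal generated by the family -/
def GI : Set (Set Y) := {A | ∃ ν γ g, A ⊆ U ν γ g}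

/-- the ideal generated by a part of the family -/
def Glo (μ : Om2) : Set (Set Y) := {A | ∃ ν ≤ μ, ∃ γ g, A ⊆ U ν γ g}

variable {U}

theorem Glo_eq (hU : Dir U) (μ : Om2) : Glo U μ = {A | ∃ γ g, A ⊆ U μ γ g} := by
  ext A
  constructor
  · rintro ⟨ν, hν, γ, g, h⟩
    obtain ⟨γ', g', h'⟩ := hU (fun _ => ν) (fun _ => γ) (fun _ => g) μ (fun _ => hν)
    exact ⟨γ', g', h.trans (h' 0)⟩
  · rintro ⟨γ, g, h⟩
    exact ⟨μ, le_rfl, γ, g, h⟩

theorem Glo_sigma (hU : Dir U) (μ : Om2) : IsSigmaIdeal (Glo U μ) := by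
  obtain ⟨w0⟩ : Nonempty Om1 := inferInstance
  refine sigma_of ⟨μ, le_rfl, w0, fun _ => 0, empty_subset _⟩ ?_ ?_
  · rintro A ⟨ν, hν, γ, g, h⟩ B hB
    exact ⟨ν, hν, γ, g, hB.trans h⟩
  · intro A hA
    choose ν hν γ g h using hA
    obtain ⟨γ', g', h'⟩ := hU ν γ g μ hν
    exact ⟨μ, le_rfl, γ', g', iUnion_subset fun j => (h j).trans (h' j)⟩

theorem GI_sigma (hU : Dir U) : IsSigmaIdeal (GI U) := by
  obtain ⟨w0⟩ : Nonempty Om1 := inferInstance
  obtain ⟨ν0⟩ : Nonempty Om2 := inferInstance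
  refine sigma_of ⟨ν0, w0, fun _ => 0, empty_subset _⟩ ?_ ?_
  · rintro A ⟨ν, γ, g, h⟩ B hB
    exact ⟨ν, γ, g, hB.trans h⟩
  · intro A hA
    choose ν γ g h using hA
    obtain ⟨ν', hν'⟩ := exists_bound_om2 ν
    obtain ⟨γ', g', h'⟩ := hU ν γ g ν' hν'
    exact ⟨ν', γ', g', iUnion_subset fun j => (h j).trans (h' j)⟩

theorem mem_GI_iff (A : Set Y) : A ∈ GI U ↔ ∃ μ, A ∈ Glo U μ := by
  constructor
  · rintro ⟨ν, γ, g, h⟩
    exact ⟨ν, ν, le_rfl, γ, g, h⟩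
  · rintro ⟨μ, ν, -, γ, g, h⟩
    exact ⟨ν, γ, g, h⟩

theorem Glo_mono {μ μ' : Om2} (h : μ ≤ μ') : Glo U μ ⊆ Glo U μ' := by
  rintro A ⟨ν, hν, h'⟩
  exact ⟨ν, hν.trans h, h'⟩

end Directed

section

variable {F : Om2 → Om1 → Om1} {c : Om2 → Pr} {E A : Om1 → Set ℕ} {B : Om2 → ℕ → Set ℕ}

theorem dir_Gen (hc : Tower F c) (hS : Sys c E A B) (n : ℕ) : Dir (Gen E B n) := by
  intro ν γ g ν' hν'
  obtain ⟨γ', g', h⟩ := Gen_sup hc hS ν γ g ν' hν'
  exact ⟨γ', g', h n⟩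

/-- strictness -/
theorem not_Gen (hc : Tower F c) (hS : Sys c E A B) {μ μ' : Om2} (h : μ < μ') (γ : Om1)
    (g : ℕ → ℕ) : ¬ Dset (B μ' 0) ⊆ Gen E B 0 μ γ g := by
  obtain ⟨ξ, h1, h2, h3⟩ := hc.S_strict h γ
  exact not_subset_of_infinite (hS.B_inf ξ γ μ μ' 0 h1 h2 h3) g

theorem Dset_B_mem_GL (U : Om2) : Dset (B U 0) ∈ Glo (Gen E B 0) U := by
  obtain ⟨w0⟩ : Nonempty Om1 := inferInstance
  exact ⟨U, le_rfl, w0, fun _ => 0, fun x hx => Or.inl (Or.inl hx)⟩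

theorem singleton_mem (x : Cx) (ν : Om2) (γ : Om1) (n : ℕ) : ∃ g, x ∈ Gen E B n ν γ g := by
  obtain ⟨g, hg⟩ := exists_mem_Kset x
  exact ⟨g, Or.inr hg⟩

/-! ### The first ideal -/

theorem row_cofinPlus_le (hc : Tower F c) (hS : Sys c E A B) : cofinPlus (Row E B 0) ≤ om2 := by
  obtain ⟨w0⟩ : Nonempty Om1 := inferInstance
  have hd := dir_Gen hc hS 0
  obtain ⟨J', hJ', hJ''⟩ := tower_of_type (Φ := IsSigmaIdeal) (I := Row E B 0) (κ := ℵ_ 2)
    (Cardinal.aleph0_le_aleph 2) (fun μ => Glo (Gen E B 0) μ) (Glo_sigma hd)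
    (fun X => mem_GI_iff (U := Gen E B 0) X) (fun μ μ' h => Glo_mono h.le)
    (fun μ μ' h => by
      refine ⟨Dset (B μ' 0), Dset_B_mem_GL μ', fun hcon => ?_⟩
      rw [Glo_eq hd] at hcon
      obtain ⟨γ, g, hcon⟩ := hcon
      exact not_Gen hc hS h γ g hcon)
  refine least_le ⟨J', hJ', hJ'' fun μ x => ?_⟩
  obtain ⟨g, hg⟩ := singleton_mem (E := E) (B := B) x μ w0 0
  exact ⟨μ, le_rfl, w0, g, singleton_subset_iff.2 hg⟩

theorem row_cofinStar_le (hc : Tower F c) (hS : Sys c E A B) : cofinStar (Row E B 0) ≤ om1 := by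
  obtain ⟨ν0⟩ : Nonempty Om2 := inferInstance
  have hInf : ∀ δ γ : Om1, γ < δ → ∀ ν, (∃ ξ, γ < ξ ∧ ξ ≤ δ ∧ ξ ∉ S c ν 0) →
      ∀ g, ¬ Dset (E δ) ⊆ Gen E B 0 ν γ g := by
    rintro δ γ h ν ⟨ξ, h1, h2, h3⟩ g
    exact not_subset_of_infinite (hS.E_inf ξ δ γ ν 0 h2 h1 h3) g
  have hmem : ∀ w, Dset (E w) ∈ Row E B 0 := fun w =>
    ⟨ν0, w, fun _ => 0, fun x hx => Or.inl (Or.inr hx)⟩
  obtain ⟨J', hJ', -⟩ := tower_of_type (Φ := IsHereditary) (I := Row E B 0) (κ := ℵ₁)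
    (Cardinal.aleph0_le_aleph 1) (fun δ => {X | X ∈ Row E B 0 ∧ ¬ Dset (E δ) ⊆ X})
    (by
      rintro δ X ⟨hX, hX'⟩ Y hY
      exact ⟨(Row_sigma hc hS 0).1.2.1 X hX Y hY, fun h => hX' (h.trans hY)⟩)
    (by
      intro X
      constructor
      · intro hX
        obtain ⟨ν, γ, g, h⟩ := hX
        obtain ⟨μ', hμ'⟩ := exists_gt_om2 ν
        obtain ⟨ξ, h1, -, h3⟩ := hc.S_strict hμ' γ
        exact ⟨ξ, ⟨ν, γ, g, h⟩, fun hcon => hInf ξ γ h1 ν ⟨ξ, h1, le_rfl, h3⟩ g (hcon.trans h)⟩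
      · rintro ⟨δ, h, -⟩
        exact h)
    (by
      rintro δ δ' h X ⟨hX, hX'⟩
      exact ⟨hX, fun hcon => hX' ((Dset_subset (hS.E_mono _ _ h.le)).trans hcon)⟩)
    (by
      intro δ δ' h
      refine ⟨Dset (E δ), ⟨hmem δ, fun hcon => ?_⟩, fun hcon => hcon.2 Subset.rfl⟩
      -- `δ'` is a point of `E δ'` which is not in `E δ`
      have hz := hc.zero
      obtain ⟨z, -, hz0, -⟩ := hz
      have h3 : δ' ∉ S c z 0 := by
        simp [S, hz0]
      exact hInf δ' δ h z ⟨δ', h, le_rfl, h3⟩ (fun _ => 0) (hcon.trans fun x hx =>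
        Or.inl (Or.inr hx)))
  exact least_le ⟨J', hJ'⟩

theorem row_le_cofinMinus (hc : Tower F c) (hF : Dom F) (hS : Sys c E A B) (hb : Bdd1) :
    om2 ≤ cofinMinus (Row E B 0) := by
  have hI := Row_sigma hc hS 0
  refine le_least ?_
  rintro γ ⟨J, hJ⟩
  by_contra hcon
  push Not at hcon
  have h0 : (0 : Ordinal.{0}) < γ := by
    have := hJ.1.bot_lt
    rwa [Ordinal.bot_eq_zero] at this
  obtain ⟨α, hα, h⟩ := stage (R := Row E B 0) (row_main hc hF hS hb 0) h0 hcon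
    (hJ.bounded (fun _ h => h.2.1) hI) J hJ.2.1 (fun α β h1 h2 => hJ.mono h1 h2)
    (fun X hX => (hJ.2.2.1 X).1 hX)
  obtain ⟨X, hX, hX'⟩ := hJ.exists_notMem hα
  exact hX' (h X hX)

/-! ### The second ideal -/

/-- the generators of the second ideal -/
def Gen2 (E : Om1 → Set ℕ) (B : Om2 → ℕ → Set ℕ) (ν : Om2) (γ : Om1) (g : ℕ → ℕ) :
    Set (ℕ × Cx) := {y | y.2 ∈ Gen E B y.1 ν γ g}

theorem dir_Gen2 (hc : Tower F c) (hS : Sys c E A B) : Dir (Gen2 E B) := by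
  intro ν γ g ν' hν'
  obtain ⟨γ', g', h⟩ := Gen_sup hc hS ν γ g ν' hν'
  exact ⟨γ', g', fun j y hy => h y.1 j hy⟩

theorem measurable_Gen2 (ν : Om2) (γ : Om1) (g : ℕ → ℕ) : MeasurableSet (Gen2 E B ν γ g) := by
  have : Gen2 E B ν γ g = ⋃ n : ℕ, ({n} : Set ℕ) ×ˢ Gen E B n ν γ g := by
    ext ⟨n, x⟩
    simp [Gen2]
  rw [this]
  exact MeasurableSet.iUnion fun n => (measurableSet_singleton n).prod (measurable_Gen E B n ν γ g)

theorem second_cofinPlus_le (hc : Tower F c) (hS : Sys c E A B) :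
    cofinPlus (GI (Gen2 E B)) ≤ om2 := by
  obtain ⟨w0⟩ : Nonempty Om1 := inferInstance
  have hd := dir_Gen2 hc hS
  obtain ⟨J', hJ', hJ''⟩ := tower_of_type (Φ := IsSigmaIdeal) (I := GI (Gen2 E B)) (κ := ℵ_ 2)
    (Cardinal.aleph0_le_aleph 2) (fun μ => Glo (Gen2 E B) μ) (Glo_sigma hd)
    (fun X => mem_GI_iff (U := Gen2 E B) X) (fun μ μ' h => Glo_mono h.le)
    (fun μ μ' h => by
      refine ⟨{y | y.1 = 0 ∧ y.2 ∈ Dset (B μ' 0)}, ⟨μ', le_rfl, w0, fun _ => 0, ?_⟩, fun hcon => ?_⟩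
      · rintro ⟨n, x⟩ ⟨h1, h2⟩
        simp only at h1 h2
        subst h1
        exact Or.inl (Or.inl h2)
      rw [Glo_eq hd] at hcon
      obtain ⟨γ, g, hcon⟩ := hcon
      refine not_Gen hc hS h γ g fun x hx => ?_
      exact hcon (a := (0, x)) ⟨rfl, hx⟩)
  refine least_le ⟨J', hJ', hJ'' fun μ y => ?_⟩
  obtain ⟨g, hg⟩ := singleton_mem (E := E) (B := B) y.2 μ w0 y.1
  exact ⟨μ, le_rfl, w0, g, singleton_subset_iff.2 hg⟩

theorem second_cofinMinus_le (hc : Tower F c) (hS : Sys c E A B) :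
    cofinMinus (GI (Gen2 E B)) ≤ om1 := by
  classical
  obtain ⟨ν0⟩ : Nonempty Om2 := inferInstance
  have hI := GI_sigma (dir_Gen2 hc hS)
  -- small sets
  let SK : Set (Set Cx) := {X | ∃ g, X ⊆ Kset g}
  have hSK : ∀ X ∈ SK, ∀ Y ∈ SK, X ∪ Y ∈ SK := by
    rintro X ⟨g, hX⟩ Y ⟨g', hY⟩
    refine ⟨fun n => max (g n) (g' n), union_subset (hX.trans (Kset_mono ?_))
      (hY.trans (Kset_mono ?_))⟩
    · exact Eventually.of_forall fun n => le_max_left _ _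
    · exact Eventually.of_forall fun n => le_max_right _ _
  -- the bad rows
  let bad : Set (ℕ × Cx) → Om1 → Set ℕ := fun X i =>
    {n | {x | (n, x) ∈ X ∧ supp x ⊆ A i} ∉ SK}
  have hbad : ∀ X Y i, bad (X ∪ Y) i ⊆ bad X i ∪ bad Y i := by
    intro X Y i n hn
    by_contra hcon
    simp only [bad, mem_union, mem_ofPred_eq, not_or, not_not] at hcon
    obtain ⟨g, hg⟩ := hSK _ hcon.1 _ hcon.2
    refine hn ⟨g, fun x hx => hg ?_⟩
    rcases hx.1 with h | h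
    · exact Or.inl ⟨h, hx.2⟩
    · exact Or.inr ⟨h, hx.2⟩
  have hbadm : ∀ X Y i, X ⊆ Y → bad X i ⊆ bad Y i := by
    intro X Y i hXY n hn hcon
    obtain ⟨g, hg⟩ := hcon
    exact hn ⟨g, fun x hx => hg ⟨hXY hx.1, hx.2⟩⟩
  have hbad0 : ∀ i, bad ∅ i = ∅ := by
    intro i
    ext n
    simp only [bad, mem_ofPred_eq, mem_empty_iff_false, iff_false, not_not]
    exact ⟨fun _ => 0, fun x hx => hx.1.elim⟩
  have hdisj : ∀ {a b : Set ℕ}, (a ∩ b).Finite → ∀ x : Cx, supp x ⊆ a → x ∉ Dset b := by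
    intro a b hab x hx hxb
    exact hxb (hab.subset (inter_subset_inter_left _ hx))
  obtain ⟨J', hJ', -⟩ := tower_of_type (Φ := IsIdeal) (I := GI (Gen2 E B)) (κ := ℵ₁)
    (Cardinal.aleph0_le_aleph 1)
    (fun δ => {X | X ∈ GI (Gen2 E B) ∧ ∀ i, δ ≤ i → (bad X i).Finite})
    (by
      intro δ
      refine ⟨⟨hI.1.1, fun i _ => by rw [hbad0]; exact finite_empty⟩, ?_, ?_⟩
      · rintro X ⟨hX, hX'⟩ Y hY
        exact ⟨hI.1.2.1 X hX Y hY, fun i hi => (hX' i hi).subset (hbadm _ _ _ hY)⟩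
      · rintro X ⟨hX, hX'⟩ Y ⟨hY, hY'⟩
        exact ⟨hI.1.2.2 X hX Y hY, fun i hi => ((hX' i hi).union (hY' i hi)).subset (hbad _ _ _)⟩)
    (by
      intro X
      constructor
      · intro hX
        obtain ⟨ν, γ, g, h⟩ := hX
        obtain ⟨δ, hδ⟩ := exists_gt_om1 γ
        refine ⟨δ, ⟨ν, γ, g, h⟩, fun i hi => ?_⟩
        refine (finite_lt_nat ((c ν).2 i)).subset fun n hn => ?_
        by_contra hn'
        simp only [mem_ofPred_eq, not_lt] at hn'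
        refine hn ⟨g, fun x hx => ?_⟩
        have h1 : x ∈ Gen E B n ν γ g := h hx.1
        rcases h1 with (h1 | h1) | h1
        · exact absurd h1 (hdisj (hS.A_B i ν n (not_lt.2 hn')) x hx.2)
        · exact absurd h1 (hdisj (hS.A_E i γ (hδ.trans_le hi)) x hx.2)
        · exact h1
      · rintro ⟨δ, h, -⟩
        exact h)
    (by
      rintro δ δ' h X ⟨hX, hX'⟩
      exact ⟨hX, fun i hi => hX' i (h.le.trans hi)⟩)
    (by
      intro δ δ' h
      refine ⟨{y | y.2 ∈ Dset (A δ)}, ⟨⟨ν0, δ, fun _ => 0, ?_⟩, fun i hi => ?_⟩, fun hcon => ?_⟩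
      · rintro ⟨n, x⟩ hx
        exact Or.inl (Or.inr (Dset_subset (hS.A_sub δ) hx))
      · refine finite_empty.subset fun n hn => hn ⟨fun _ => 0, fun x hx => ?_⟩
        exact absurd hx.1 (hdisj (hS.A_A i δ (h.trans_le hi).ne') x hx.2)
      · have h1 := hcon.2 δ le_rfl
        refine (Set.infinite_univ (α := ℕ)) (h1.subset fun n _ => ?_)
        rintro ⟨g, hg⟩
        obtain ⟨x, hx1, hx2, hx3⟩ := exists_sparse (hS.A_inf δ) g
        refine hx3 (hg ⟨?_, hx1⟩)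
        show (supp x ∩ A δ).Infinite
        rwa [inter_eq_left.2 hx1])
  exact least_le ⟨J', hJ'⟩

theorem ideal_comap {X Y : Type} {I : Set (Set Y)} (hI : IsIdeal I) (f : X → Y) :
    IsIdeal {A : Set X | f '' A ∈ I} := by
  refine ⟨?_, fun U hU V hV => hI.2.1 _ hU _ (image_mono hV), fun U hU V hV => ?_⟩
  · show f '' ∅ ∈ I
    rw [image_empty]
    exact hI.1
  · show f '' (U ∪ V) ∈ I
    rw [image_union]
    exact hI.2.2 _ hU _ hV

theorem second_le_cofin (hc : Tower F c) (hF : Dom F) (hS : Sys c E A B) (hb : Bdd1) :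
    om2 ≤ cofin (GI (Gen2 E B)) := by
  have hI := GI_sigma (dir_Gen2 hc hS)
  refine le_least ?_
  rintro γ ⟨J, hJ⟩
  by_contra hcon
  push Not at hcon
  have h0 : (0 : Ordinal.{0}) < γ := by
    have := hJ.1.bot_lt
    rwa [Ordinal.bot_eq_zero] at this
  have hbd := hJ.bounded (fun _ h => h.1.2.1) hI
  have h1 : ∀ n : ℕ, ∃ α < γ, ∀ X ∈ Row E B n, Prod.mk n '' X ∈ J α := by
    intro n
    refine stage (R := Row E B n) (row_main hc hF hS hb n) h0 hcon hbd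
      (fun α => {X | Prod.mk n '' X ∈ J α}) (fun α hα => ideal_comap (hJ.2.1 α hα).1 _)
      (fun α β h1 h2 X hX => hJ.mono h1 h2 hX) (fun X hX => ?_)
    obtain ⟨ν, γ, g, h⟩ := hX
    refine (hJ.2.2.1 _).1 ⟨ν, γ, g, ?_⟩
    rintro _ ⟨x, hx, rfl⟩
    exact h hx
  choose α hα h using h1
  obtain ⟨β, hβ, hβ'⟩ := hbd α hα
  obtain ⟨X, hX, hX'⟩ := hJ.exists_notMem hβ
  apply hX'
  have h2 : X = ⋃ n : ℕ, Prod.mk n '' (Prod.mk n ⁻¹' X) := by
    ext ⟨n, x⟩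
    simp
  rw [h2]
  refine (hJ.2.1 β hβ).2 _ fun n => hJ.mono (hβ' n) hβ (h n _ ?_)
  obtain ⟨ν, γ, g, h⟩ := hX
  exact ⟨ν, γ, g, fun x hx => h hx⟩

/-! ### The third ideal -/

/-- the third ideal -/
def I3 (R : Set (Set Cx)) : Set (Set (Bool × Cx)) :=
  {X | (Prod.mk false ⁻¹' X).Countable ∧ Prod.mk true ⁻¹' X ∈ R}

theorem I3_sigma {R : Set (Set Cx)} (hR : IsSigmaIdeal R) : IsSigmaIdeal (I3 R) := by
  refine sigma_of ⟨by simp, by simpa using hR.1.1⟩ ?_ ?_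
  · rintro X ⟨h1, h2⟩ Y hY
    exact ⟨h1.mono (preimage_mono hY), hR.1.2.1 _ h2 _ (preimage_mono hY)⟩
  · intro X hX
    refine ⟨?_, ?_⟩
    · rw [preimage_iUnion]
      exact countable_iUnion fun n => (hX n).1
    · rw [preimage_iUnion]
      exact hR.2 _ fun n => (hX n).2

theorem exists_points : ∃ p : Om1 → Cx, Function.Injective p := by
  have h : #Om1 ≤ #Cx := by
    rw [Cardinal.mk_ord_toType]
    have : #Cx = 𝔠 := by
      simp [Cx]
    rw [this]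
    exact Cardinal.aleph_one_le_continuum
  obtain ⟨g⟩ := h
  exact ⟨g, g.injective⟩

theorem third_cofin_le {R : Set (Set Cx)} (hR : IsSigmaIdeal R) : cofin (I3 R) ≤ om1 := by
  obtain ⟨p, hp⟩ := exists_points
  refine cofin_le_of_points (I3_sigma hR) (fun w => (false, p w)) ?_ ?_ ?_
  · intro w w' h
    exact hp (Prod.mk.inj h).2
  · intro w
    refine ⟨(countable_singleton (p w)).mono fun x hx => ?_, ?_⟩
    · simpa using hx
    · have : (Prod.mk true ⁻¹' {(false, p w)} : Set Cx) = ∅ := by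
        ext x
        simp
      rw [this]
      exact hR.1.1
  · rintro X ⟨h1, -⟩
    exact h1.preimage hp

theorem third_cofinPlus_le (hc : Tower F c) (hS : Sys c E A B) :
    cofinPlus (I3 (Row E B 0)) ≤ om2 := by
  obtain ⟨w0⟩ : Nonempty Om1 := inferInstance
  have hd := dir_Gen hc hS 0
  obtain ⟨J', hJ', hJ''⟩ := tower_of_type (Φ := IsSigmaIdeal) (I := I3 (Row E B 0)) (κ := ℵ_ 2)
    (Cardinal.aleph0_le_aleph 2) (fun μ => I3 (Glo (Gen E B 0) μ)) (fun μ => I3_sigma (Glo_sigma hd μ))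
    (fun X => by
      constructor
      · rintro ⟨h1, h2⟩
        obtain ⟨μ, hμ⟩ := (mem_GI_iff (U := Gen E B 0) _).1 h2
        exact ⟨μ, h1, hμ⟩
      · rintro ⟨μ, h1, hμ⟩
        exact ⟨h1, (mem_GI_iff (U := Gen E B 0) _).2 ⟨μ, hμ⟩⟩)
    (fun μ μ' h X hX => ⟨hX.1, Glo_mono h.le hX.2⟩)
    (fun μ μ' h => by
      refine ⟨Prod.mk true '' Dset (B μ' 0), ⟨?_, ?_⟩, fun hcon => ?_⟩
      · have : (Prod.mk false ⁻¹' (Prod.mk true '' Dset (B μ' 0)) : Set Cx) = ∅ := by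
          ext x
          simp
        rw [this]
        exact countable_empty
      · rw [preimage_image_eq _ (Prod.mk_right_injective true)]
        exact Dset_B_mem_GL μ'
      · have h2 := hcon.2
        rw [preimage_image_eq _ (Prod.mk_right_injective true), Glo_eq hd] at h2
        obtain ⟨γ, g, h2⟩ := h2
        exact not_Gen hc hS h γ g h2)
  refine least_le ⟨J', hJ', hJ'' fun μ y => ?_⟩
  refine ⟨(Subsingleton.countable ?_), ?_⟩
  · intro x hx x' hx'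
    simp only [mem_preimage, mem_singleton_iff] at hx hx'
    rw [← hx'] at hx
    exact (Prod.mk.inj hx).2
  · obtain ⟨g, hg⟩ := singleton_mem (E := E) (B := B) y.2 μ w0 0
    refine ⟨μ, le_rfl, w0, g, fun x hx => ?_⟩
    simp only [mem_preimage, mem_singleton_iff] at hx
    rw [← hx] at hg
    exact hg

/-- Countable sets belong to every σ-ideal which contains all singletons. -/
theorem countable_mem {X : Type} {I : Set (Set X)} (hI : IsSigmaIdeal I) (h : ∀ x, {x} ∈ I)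
    {U : Set X} (hU : U.Countable) : U ∈ I := by
  rcases U.eq_empty_or_nonempty with rfl | hne
  · exact hI.1.1
  · obtain ⟨f, rfl⟩ := hU.exists_eq_range hne
    have : range f = ⋃ n, {f n} := by
      ext x
      simp [eq_comm]
    rw [this]
    exact hI.2 _ fun n => h _

theorem third_le_cofinPlus (hc : Tower F c) (hF : Dom F) (hS : Sys c E A B) (hb : Bdd1) :
    om2 ≤ cofinPlus (I3 (Row E B 0)) := by
  have hI := I3_sigma (Row_sigma hc hS 0)
  refine le_least ?_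
  rintro γ ⟨J, hJ, hJ0⟩
  by_contra hcon
  push Not at hcon
  have h0 : (0 : Ordinal.{0}) < γ := by
    have := hJ.1.bot_lt
    rwa [Ordinal.bot_eq_zero] at this
  have hbd := hJ.bounded (fun _ h => h.1.2.1) hI
  obtain ⟨α, hα, h⟩ : ∃ α < γ, ∀ X ∈ Row E B 0, Prod.mk true '' X ∈ J α := by
    refine stage (R := Row E B 0) (row_main hc hF hS hb 0) h0 hcon hbd
      (fun α => {X | Prod.mk true '' X ∈ J α}) (fun α hα => ideal_comap (hJ.2.1 α hα).1 _)
      (fun α β h1 h2 X hX => hJ.mono h1 h2 hX) (fun X hX => ?_)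
    refine (hJ.2.2.1 _).1 ⟨?_, ?_⟩
    · have : (Prod.mk false ⁻¹' (Prod.mk true '' X) : Set Cx) = ∅ := by
        ext x
        simp
      rw [this]
      exact countable_empty
    · rw [preimage_image_eq _ (Prod.mk_right_injective true)]
      exact hX
  obtain ⟨X, hX, hX'⟩ := hJ.exists_notMem hα
  apply hX'
  have h2 : X = Prod.mk false '' (Prod.mk false ⁻¹' X) ∪ Prod.mk true '' (Prod.mk true ⁻¹' X) := by
    ext ⟨b, x⟩
    cases b <;> simp
  rw [h2]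
  refine (hJ.2.1 α hα).1.2.2 _ ?_ _ (h _ hX.2)
  exact countable_mem (hJ.2.1 α hα) (fun y => hJ.mono zero_le hα (hJ0 y)) (hX.1.image _)

end

end Pool.Agent.U69.CI
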