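import Pool.Agent.U69.CI.Chain
import Pool.Agent.U69.CI.Emb
import Pool.Agent.U69.CI.Defs

/-!
# The basic ideal

The σ-ideal generated by the sets `Dset (B ν n)`, `Dset (E γ)`, `Kset g` is not the union of an
increasing sequence of length `ω₁` of smaller ideals.
-/

set_option autoImplicit false

namespace Pool.Agent.U69.CI

open Cardinal Set Filter Pool.Agent.W684.FM

/-- The Cantor space. -/
abbrev Cx : Type := ℕ → Bool

/-- the set of natural numbers with characteristic function `x` -/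
def supp (x : Cx) : Set ℕ := {k | x k = true}

/-- the sets which meet `b` in an infinite set -/
def Dset (b : Set ℕ) : Set Cx := {x | (supp x ∩ b).Infinite}

/-- the sets which are finite or whose enumeration does not grow faster than `g` -/
def Kset (g : ℕ → ℕ) : Set Cx :=
  {x | (supp x).Finite ∨ ∀ᶠ n in atTop, ∃ k ∈ supp x, n ≤ k ∧ k < g n}

theorem Dset_subset_union {b b1 b2 : Set ℕ} (h : (b \ (b1 ∪ b2)).Finite) :
    Dset b ⊆ Dset b1 ∪ Dset b2 := by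
  intro x hx
  by_contra hcon
  simp only [Dset, mem_union, mem_ofPred_eq, not_or, not_infinite] at hcon
  apply hx
  refine (h.union (hcon.1.union hcon.2)).subset ?_
  rintro k ⟨hk1, hk2⟩
  by_cases h1 : k ∈ b1
  · exact Or.inr (Or.inl ⟨hk1, h1⟩)
  · by_cases h2 : k ∈ b2
    · exact Or.inr (Or.inr ⟨hk1, h2⟩)
    · exact Or.inl ⟨hk2, fun h => h.elim h1 h2⟩

theorem Dset_subset {b b1 : Set ℕ} (h : (b \ b1).Finite) : Dset b ⊆ Dset b1 := by
  have := Dset_subset_union (b := b) (b1 := b1) (b2 := b1) (by rwa [union_self])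
  rwa [union_self] at this

theorem Kset_mono {g g' : ℕ → ℕ} (h : ∀ᶠ n in atTop, g n ≤ g' n) : Kset g ⊆ Kset g' := by
  rintro x (hx | hx)
  · exact Or.inl hx
  · refine Or.inr ?_
    filter_upwards [h, hx] with n h1 h2
    obtain ⟨k, hk, hk1, hk2⟩ := h2
    exact ⟨k, hk, hk1, hk2.trans_le h1⟩

theorem exists_mem_Kset (x : Cx) : ∃ g, x ∈ Kset g := by
  by_cases hx : (supp x).Finite
  · exact ⟨fun _ => 0, Or.inl hx⟩
  · have h : ∀ n, ∃ k ∈ supp x, n < k := fun n => Set.Infinite.exists_gt hx n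
    choose k hk1 hk2 using h
    exact ⟨fun n => k n + 1, Or.inr (Eventually.of_forall fun n =>
      ⟨k n, hk1 n, (hk2 n).le, Nat.lt_succ_self _⟩)⟩

theorem exists_sparse {b : Set ℕ} (hb : b.Infinite) (g : ℕ → ℕ) :
    ∃ x : Cx, supp x ⊆ b ∧ (supp x).Infinite ∧ x ∉ Kset g := by
  classical
  have h : ∀ n, ∃ k ∈ b, max n (g (n + 1)) < k := fun n => hb.exists_gt _
  choose nx h1 h2 using h
  let k : ℕ → ℕ := fun j => nx^[j + 1] 0
  have hk : ∀ j, k (j + 1) = nx (k j) := fun j => Function.iterate_succ_apply' nx (j + 1) 0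
  have hmono : StrictMono k := strictMono_nat_of_lt_succ fun j => by
    rw [hk]
    exact (le_max_left _ _).trans_lt (h2 _)
  let x : Cx := fun m => decide (∃ j, k j = m)
  have hx : supp x = range k := by
    ext m
    simp [supp, x]
  have hinf : (supp x).Infinite := by
    rw [hx]
    exact infinite_range_of_injective hmono.injective
  refine ⟨x, ?_, hinf, ?_⟩
  · rw [hx]
    rintro _ ⟨j, rfl⟩
    cases j with
    | zero => exact h1 0
    | succ j => rw [hk]; exact h1 _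
  · rintro (h | h)
    · exact hinf h
    · obtain ⟨N, hN⟩ := eventually_atTop.1 h
      obtain ⟨m, hm, hm1, hm2⟩ := hN (k N + 1) ((hmono.id_le N).trans (Nat.le_succ _))
      rw [hx] at hm
      obtain ⟨i, rfl⟩ := hm
      have h3 : N < i := hmono.lt_iff_lt.1 (Nat.lt_of_succ_le hm1)
      have h4 : k (N + 1) ≤ k i := hmono.monotone h3
      rw [hk] at h4
      have h5 := (le_max_right _ _).trans_lt (h2 (k N))
      omega

theorem not_subset_of_infinite {b b1 b2 : Set ℕ} (h : (b \ (b1 ∪ b2)).Infinite) (g : ℕ → ℕ) :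
    ¬ Dset b ⊆ Dset b1 ∪ Dset b2 ∪ Kset g := by
  intro hcon
  obtain ⟨x, hx1, hx2, hx3⟩ := exists_sparse h g
  have h1 : x ∈ Dset b := by
    show (supp x ∩ b).Infinite
    rwa [inter_eq_left.2 fun k hk => (hx1 hk).1]
  rcases hcon h1 with (h2 | h2) | h2
  · refine h2 ?_
    have : supp x ∩ b1 = ∅ := by
      ext k
      simp only [mem_inter_iff, mem_empty_iff_false, iff_false, not_and]
      exact fun hk hk' => (hx1 hk).2 (Or.inl hk')
    rw [this]
    exact finite_empty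
  · refine h2 ?_
    have : supp x ∩ b2 = ∅ := by
      ext k
      simp only [mem_inter_iff, mem_empty_iff_false, iff_false, not_and]
      exact fun hk hk' => (hx1 hk).2 (Or.inr hk')
    rw [this]
    exact finite_empty
  · exact hx3 h2

/-! ### The system of sets -/

/-- The system of subsets of `ℕ` which represents the tower. -/
structure Sys (c : Om2 → Pr) (E A : Om1 → Set ℕ) (B : Om2 → ℕ → Set ℕ) : Prop where
  E_mono : ∀ γ γ', γ ≤ γ' → (E γ \ E γ').Finite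
  B_mono : ∀ ν ν' n a, (∀ ξ, ξ ∈ S c ν n → ξ ∈ S c ν' n ∨ ξ ≤ a) →
    (B ν n \ (B ν' n ∪ E a)).Finite
  E_cover : ∀ i j ν n, (∀ ξ, i < ξ → ξ ≤ j → ξ ∈ S c ν n) → (E j \ (B ν n ∪ E i)).Finite
  A_sub : ∀ w, (A w \ E w).Finite
  A_inf : ∀ w, (A w).Infinite
  A_A : ∀ w w', w ≠ w' → (A w ∩ A w').Finite
  A_E : ∀ w γ, γ < w → (A w ∩ E γ).Finite
  A_B : ∀ w ν n, w ∉ S c ν n → (A w ∩ B ν n).Finite
  E_inf : ∀ ξ δ γ ν n, ξ ≤ δ → γ < ξ → ξ ∉ S c ν n → (E δ \ (B ν n ∪ E γ)).Infinite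
  B_inf : ∀ ξ γ ν ν' n, γ < ξ → ξ ∈ S c ν' n → ξ ∉ S c ν n → (B ν' n \ (B ν n ∪ E γ)).Infinite

theorem exists_sys (hMA : MartinAxiomCard (ℵ_ 2)) (c : Om2 → Pr) :
    ∃ (E A : Om1 → Set ℕ) (B : Om2 → ℕ → Set ℕ), Sys c E A B := by
  classical
  let s : Om1 ⊕ (Om1 ⊕ (Om2 × ℕ)) → Set Om1 := fun l => match l with
    | Sum.inl w => Iic w
    | Sum.inr (Sum.inl w) => {w}
    | Sum.inr (Sum.inr (ν, n)) => S c ν n
  have h0 : ℵ₀ ≤ ℵ_ 2 := Cardinal.aleph0_le_aleph 2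
  have h12 : (ℵ₁ : Cardinal.{0}) ≤ ℵ_ 2 := by
    rw [aleph2_eq]
    exact Order.le_succ _
  have h1 : #Om1 ≤ ℵ_ 2 := by
    rw [Cardinal.mk_ord_toType]
    exact h12
  have hL : #(Om1 ⊕ (Om1 ⊕ (Om2 × ℕ))) ≤ ℵ_ 2 := by
    rw [mk_sum, mk_sum, mk_prod]
    simp only [Cardinal.lift_id]
    refine add_le_of_le h0 h1 (add_le_of_le h0 h1 (mul_le_of_le h0 ?_ ?_))
    · rw [Cardinal.mk_ord_toType]
    · rw [mk_nat]
      exact h0
  obtain ⟨e, he1, he2⟩ := exists_rep hMA h0 hL h1 s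
  -- finite differences
  have F1 : ∀ l l1 l2, s l ⊆ s l1 ∪ s l2 → (e l \ (e l1 ∪ e l2)).Finite := by
    intro l l1 l2 h
    obtain ⟨n, hn⟩ := he1 {l, l1, l2}
    refine (finite_lt_nat n).subset ?_
    rintro k ⟨hk, hk'⟩
    by_contra hkn
    simp only [mem_ofPred_eq, not_lt] at hkn
    obtain ⟨w, hw⟩ := hn k hkn
    have a1 := (hw l (by simp)).1 hk
    rcases h a1 with h2 | h2
    · exact hk' (Or.inl ((hw l1 (by simp)).2 h2))
    · exact hk' (Or.inr ((hw l2 (by simp)).2 h2))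
  have F2 : ∀ l l', s l ∩ s l' = ∅ → (e l ∩ e l').Finite := by
    intro l l' h
    obtain ⟨n, hn⟩ := he1 {l, l'}
    refine (finite_lt_nat n).subset ?_
    rintro k ⟨hk, hk'⟩
    by_contra hkn
    simp only [mem_ofPred_eq, not_lt] at hkn
    obtain ⟨w, hw⟩ := hn k hkn
    have : w ∈ s l ∩ s l' := ⟨(hw l (by simp)).1 hk, (hw l' (by simp)).1 hk'⟩
    rw [h] at this
    exact this
  have F3 : ∀ l l1 l2 w, w ∈ s l → w ∉ s l1 → w ∉ s l2 → (e l \ (e l1 ∪ e l2)).Infinite := by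
    intro l l1 l2 w h1 h2 h3 hfin
    obtain ⟨M, hM⟩ := hfin.bddAbove
    obtain ⟨k, hk, hk'⟩ := he2 {l, l1, l2} w (M + 1)
    have : k ∈ e l \ (e l1 ∪ e l2) := by
      refine ⟨(hk' l (by simp)).2 h1, ?_⟩
      rintro (h | h)
      · exact h2 ((hk' l1 (by simp)).1 h)
      · exact h3 ((hk' l2 (by simp)).1 h)
    have := hM this
    omega
  refine ⟨fun w => e (Sum.inl w), fun w => e (Sum.inr (Sum.inl w)),
    fun ν n => e (Sum.inr (Sum.inr (ν, n))), ?_⟩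
  constructor
  · intro γ γ' h
    have := F1 (Sum.inl γ) (Sum.inl γ') (Sum.inl γ')
      (fun w (hw : w ≤ γ) => Or.inl (hw.trans h))
    rwa [union_self] at this
  · intro ν ν' n a h
    exact F1 (Sum.inr (Sum.inr (ν, n))) (Sum.inr (Sum.inr (ν', n))) (Sum.inl a) h
  · intro i j ν n h
    refine F1 (Sum.inl j) (Sum.inr (Sum.inr (ν, n))) (Sum.inl i) fun ξ (hξ : ξ ≤ j) => ?_
    rcases le_or_gt ξ i with h1 | h1
    · exact Or.inr h1
    · exact Or.inl (h ξ h1 hξ)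
  · intro w
    have := F1 (Sum.inr (Sum.inl w)) (Sum.inl w) (Sum.inl w)
      (fun v (hv : v = w) => Or.inl (hv.le))
    rwa [union_self] at this
  · intro w hfin
    obtain ⟨M, hM⟩ := hfin.bddAbove
    obtain ⟨k, hk, hk'⟩ := he2 {Sum.inr (Sum.inl w)} w (M + 1)
    have := hM ((hk' (Sum.inr (Sum.inl w)) (by simp)).2 (mem_singleton w))
    omega
  · intro w w' h
    refine F2 (Sum.inr (Sum.inl w)) (Sum.inr (Sum.inl w')) ?_
    show ({w} : Set Om1) ∩ {w'} = ∅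
    ext v
    simp only [mem_inter_iff, mem_singleton_iff, mem_empty_iff_false, iff_false, not_and]
    rintro rfl h'
    exact h h'
  · intro w γ h
    refine F2 (Sum.inr (Sum.inl w)) (Sum.inl γ) ?_
    show ({w} : Set Om1) ∩ Iic γ = ∅
    ext v
    simp only [mem_inter_iff, mem_singleton_iff, mem_empty_iff_false, iff_false, not_and, mem_Iic,
      not_le]
    rintro rfl
    exact h
  · intro w ν n h
    refine F2 (Sum.inr (Sum.inl w)) (Sum.inr (Sum.inr (ν, n))) ?_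
    show ({w} : Set Om1) ∩ S c ν n = ∅
    ext v
    simp only [mem_inter_iff, mem_singleton_iff, mem_empty_iff_false, iff_false, not_and]
    rintro rfl
    exact h
  · intro ξ δ γ ν n h1 h2 h3
    exact F3 (Sum.inl δ) (Sum.inr (Sum.inr (ν, n))) (Sum.inl γ) ξ h1 h3 (not_le.2 h2)
  · intro ξ γ ν ν' n h1 h2 h3
    exact F3 (Sum.inr (Sum.inr (ν', n))) (Sum.inr (Sum.inr (ν, n))) (Sum.inl γ) ξ h2 h3 (not_le.2 h1)

/-- the sets which generate the ideal -/
def Gen (E : Om1 → Set ℕ) (B : Om2 → ℕ → Set ℕ) (n : ℕ) (ν : Om2) (γ : Om1) (g : ℕ → ℕ) : Set Cx :=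
  Dset (B ν n) ∪ Dset (E γ) ∪ Kset g

/-- The basic ideals. -/
def Row (E : Om1 → Set ℕ) (B : Om2 → ℕ → Set ℕ) (n : ℕ) : Set (Set Cx) :=
  {A | ∃ ν γ g, A ⊆ Gen E B n ν γ g}

/-- Every family of at most `ℵ₁` functions is eventually bounded. -/
def Bdd1 : Prop := ∀ G : Om1 → ℕ → ℕ, ∃ g : ℕ → ℕ, ∀ w, ∀ᶠ n in atTop, G w n ≤ g n

theorem bdd1 (hMA : MartinAxiomCard (ℵ_ 2)) : Bdd1 := by
  intro G
  obtain ⟨g, hg⟩ := Pool.Agent.K1H57.MATools.bounded hMA (Cardinal.aleph0_le_aleph 2) (X := Om1) (by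
    rw [Cardinal.mk_ord_toType, aleph2_eq]
    exact Order.le_succ _) G
  exact ⟨g, fun w => (hg w).mono fun n h => h.le⟩

/-- unbounded pigeonhole for functions from `ω₂` to `ω₁` -/
theorem pigeon_om2 (β : Om2 → Om1) : ∃ b, ∀ ν, ∃ ν', ν ≤ ν' ∧ β ν' = b := by
  by_contra hcon
  push Not at hcon
  choose N hN using hcon
  have h1 : (Set.univ : Set Om2) ⊆ ⋃ b, Iio (N b) := by
    intro ν _
    refine mem_iUnion.2 ⟨β ν, ?_⟩
    by_contra h
    exact hN (β ν) ν (not_lt.1 h) rfl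
  have h2 : #Om2 ≤ ℵ₁ := by
    rw [← Cardinal.mk_univ]
    refine (Cardinal.mk_le_mk_of_subset h1).trans ((Cardinal.mk_iUnion_le _).trans ?_)
    refine Cardinal.mul_le_of_le (Cardinal.aleph0_le_aleph 1) ?_ ?_
    · rw [Cardinal.mk_ord_toType]
    · exact ciSup_le' fun b => mk_Iio_om2 _
  rw [Cardinal.mk_ord_toType, aleph2_eq] at h2
  exact absurd h2 (not_le.2 (Order.lt_succ _))

section

variable {F : Om2 → Om1 → Om1} {c : Om2 → Pr} {E A : Om1 → Set ℕ} {B : Om2 → ℕ → Set ℕ}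

theorem Dset_B_subset (hc : Tower F c) (hS : Sys c E A B) {ν ν' : Om2} (h : ν ≤ ν') :
    ∃ a, ∀ n, Dset (B ν n) ⊆ Dset (B ν' n) ∪ Dset (E a) := by
  obtain ⟨a, ha⟩ := hc.S_mono h
  refine ⟨a, fun n => Dset_subset_union (hS.B_mono ν ν' n a fun ξ hξ => ?_)⟩
  rcases le_or_gt a ξ with h1 | h1
  · exact Or.inl (ha n ξ h1 hξ)
  · exact Or.inr h1.le

theorem row_main (hc : Tower F c) (hF : Dom F) (hS : Sys c E A B) (hb : Bdd1) (n : ℕ)
    (J : Om1 → Set (Set Cx)) (hJ : ∀ δ, IsIdeal (J δ)) (hmono : ∀ δ δ', δ ≤ δ' → J δ ⊆ J δ')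
    (hU : ∀ X ∈ Row E B n, ∃ δ, X ∈ J δ) : ∃ δ, ∀ X ∈ Row E B n, X ∈ J δ := by
  classical
  have hJsub : ∀ δ X Y, Y ∈ J δ → X ⊆ Y → X ∈ J δ := fun δ X Y h1 h2 => (hJ δ).2.1 _ h1 _ h2
  obtain ⟨w0⟩ : Nonempty Om1 := inferInstance
  obtain ⟨ν0⟩ : Nonempty Om2 := by
    rw [← Cardinal.mk_ne_zero_iff, Cardinal.mk_ord_toType]
    exact (Cardinal.aleph_pos _).ne'
  have hDE : ∀ w, ∃ δ, Dset (E w) ∈ J δ := fun w =>
    hU _ ⟨ν0, w, fun _ => 0, fun x hx => Or.inl (Or.inr hx)⟩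
  have hDB : ∀ ν, ∃ δ, Dset (B ν n) ∈ J δ := fun ν =>
    hU _ ⟨ν, w0, fun _ => 0, fun x hx => Or.inl (Or.inl hx)⟩
  have hK : ∀ g, ∃ δ, Kset g ∈ J δ := fun g =>
    hU _ ⟨ν0, w0, g, fun x hx => Or.inr hx⟩
  -- step 1
  have step1 : ∃ γ, ∀ w, Dset (E w) ∈ J γ := by
    choose α hα using hDE
    by_contra hcon
    push Not at hcon
    have h1 : ∀ i, ∃ j, i < j ∧ Dset (E j) ∉ J (max (α i) i) := by
      intro i
      obtain ⟨v, hv⟩ := hcon (max (α i) i)
      refine ⟨v, ?_, hv⟩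
      by_contra hle
      push Not at hle
      exact hv (hmono _ _ (le_max_left _ _)
        (hJsub _ _ _ (hα i) (Dset_subset (hS.E_mono _ _ hle))))
    choose k hk1 hk2 using h1
    obtain ⟨ν, hν⟩ := hc.T hF n k hk1
    obtain ⟨δ, hδ⟩ := hDB ν
    obtain ⟨i, hi1, -, hi3⟩ := hν δ
    apply hk2 i
    refine hJsub _ _ _ ((hJ _).2.2 _ (hmono δ _ (hi1.le.trans (le_max_right _ _)) hδ) _
      (hmono _ _ (le_max_left _ _) (hα i))) (Dset_subset_union (hS.E_cover i (k i) ν n hi3))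
  obtain ⟨γ₀, hγ₀⟩ := step1
  -- step 2
  have step2 : ∃ γ, ∀ g, Kset g ∈ J γ := by
    by_contra hcon
    push Not at hcon
    choose G hG using hcon
    obtain ⟨g, hg⟩ := hb G
    obtain ⟨δ, hδ⟩ := hK g
    exact hG δ (hJsub _ _ _ hδ (Kset_mono (hg δ)))
  obtain ⟨γ₁, hγ₁⟩ := step2
  -- step 3
  have step3 : ∃ γ, ∀ ν, Dset (B ν n) ∈ J γ := by
    choose β hβ using hDB
    obtain ⟨b, hb'⟩ := pigeon_om2 β
    refine ⟨max γ₀ b, fun ν => ?_⟩
    obtain ⟨ν', h1, h2⟩ := hb' ν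
    obtain ⟨a, ha⟩ := Dset_B_subset hc hS h1
    have h3 := hβ ν'
    rw [h2] at h3
    exact hJsub _ _ _ ((hJ _).2.2 _ (hmono _ _ (le_max_right _ _) h3) _
      (hmono _ _ (le_max_left _ _) (hγ₀ a))) (ha n)
  obtain ⟨γ₂, hγ₂⟩ := step3
  refine ⟨max γ₀ (max γ₁ γ₂), ?_⟩
  rintro X ⟨ν, γ, g, hX⟩
  refine hJsub _ _ _ ((hJ _).2.2 _ ((hJ _).2.2 _ ?_ _ ?_) _ ?_) hX
  · exact hmono _ _ ((le_max_right _ _).trans (le_max_right _ _)) (hγ₂ ν)
  · exact hmono _ _ (le_max_left _ _) (hγ₀ γ)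
  · exact hmono _ _ ((le_max_left _ _).trans (le_max_right _ _)) (hγ₁ g)

/-- upper bounds of countable sets in `ω₂` -/
theorem exists_bound_om2 (u : ℕ → Om2) : ∃ ν, ∀ j, u j ≤ ν := by
  by_contra hcon
  push Not at hcon
  have h1 : (Set.univ : Set Om2) ⊆ ⋃ j, Iio (u j) := by
    intro ν _
    obtain ⟨j, hj⟩ := hcon ν
    exact mem_iUnion.2 ⟨j, hj⟩
  have h2 : #Om2 ≤ ℵ₁ := by
    rw [← Cardinal.mk_univ]
    refine (Cardinal.mk_le_mk_of_subset h1).trans ((Cardinal.mk_iUnion_le _).trans ?_)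
    refine Cardinal.mul_le_of_le (Cardinal.aleph0_le_aleph 1) ?_ ?_
    · rw [mk_nat]
      exact Cardinal.aleph0_le_aleph 1
    · exact ciSup_le' fun b => mk_Iio_om2 _
  rw [Cardinal.mk_ord_toType, aleph2_eq] at h2
  exact absurd h2 (not_le.2 (Order.lt_succ _))

/-- Countably many generators are covered by one, uniformly in `n`. -/
theorem Gen_sup (hc : Tower F c) (hS : Sys c E A B) (ν : ℕ → Om2) (γ : ℕ → Om1)
    (g : ℕ → ℕ → ℕ) (ν' : Om2) (hν' : ∀ j, ν j ≤ ν') :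
    ∃ γ' g', ∀ n j, Gen E B n (ν j) (γ j) (g j) ⊆ Gen E B n ν' γ' g' := by
  choose a ha using fun j => Dset_B_subset hc hS (hν' j)
  obtain ⟨γ', hγ'⟩ := exists_bound (fun j => max (γ j) (a j))
  -- a bound of the functions
  obtain ⟨g', hg'⟩ : ∃ g' : ℕ → ℕ, ∀ j, ∀ᶠ n in atTop, g j n ≤ g' n := by
    refine ⟨fun n => (Finset.range (n + 1)).sup (fun j => g j n), fun j => ?_⟩
    filter_upwards [eventually_ge_atTop j] with n hn
    exact Finset.le_sup (f := fun j => g j n) (Finset.mem_range.2 (Nat.lt_succ_of_le hn))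
  refine ⟨γ', g', fun n j => ?_⟩
  have h1 : Dset (E (γ j)) ⊆ Dset (E γ') :=
    Dset_subset (hS.E_mono _ _ ((le_max_left _ _).trans (hγ' j)))
  have h2 : Dset (E (a j)) ⊆ Dset (E γ') :=
    Dset_subset (hS.E_mono _ _ ((le_max_right _ _).trans (hγ' j)))
  rintro x ((hx | hx) | hx)
  · rcases ha j n hx with h | h
    · exact Or.inl (Or.inl h)
    · exact Or.inl (Or.inr (h2 h))
  · exact Or.inl (Or.inr (h1 hx))
  · exact Or.inr (Kset_mono (hg' j) hx)

theorem Row_sigma (hc : Tower F c) (hS : Sys c E A B) (n : ℕ) :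
    IsSigmaIdeal (Row E B n) := by
  obtain ⟨w0⟩ : Nonempty Om1 := inferInstance
  obtain ⟨ν0⟩ : Nonempty Om2 := by
    rw [← Cardinal.mk_ne_zero_iff, Cardinal.mk_ord_toType]
    exact (Cardinal.aleph_pos _).ne'
  have hsig : ∀ X : ℕ → Set Cx, (∀ j, X j ∈ Row E B n) → ⋃ j, X j ∈ Row E B n := by
    intro X hX
    choose ν γ g hX using hX
    obtain ⟨ν', hν'⟩ := exists_bound_om2 ν
    obtain ⟨γ', g', h⟩ := Gen_sup hc hS ν γ g ν' hν'
    exact ⟨ν', γ', g', iUnion_subset fun j => (hX j).trans (h n j)⟩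
  refine ⟨⟨⟨ν0, w0, fun _ => 0, empty_subset _⟩, ?_, ?_⟩, hsig⟩
  · rintro X ⟨ν, γ, g, h⟩ Y hY
    exact ⟨ν, γ, g, hY.trans h⟩
  · intro X hX Y hY
    have : X ∪ Y = ⋃ j : ℕ, (fun j => if j = 0 then X else Y) j := by
      ext x
      simp only [mem_union, mem_iUnion]
      constructor
      · rintro (h | h)
        · exact ⟨0, by simpa using h⟩
        · exact ⟨1, by simpa using h⟩
      · rintro ⟨j, hj⟩
        split_ifs at hj
        · exact Or.inl hj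
        · exact Or.inr hj
    rw [this]
    refine hsig _ fun j => ?_
    split_ifs
    · exact hX
    · exact hY

end

/-! ### Borel sets -/

theorem measurable_mem (k : ℕ) : MeasurableSet {x : Cx | k ∈ supp x} :=
  measurableSet_preimage (f := fun x : Cx => x k) (measurable_pi_apply k)
    (measurableSet_singleton true)

theorem measurable_Dset (b : Set ℕ) : MeasurableSet (Dset b) := by
  have : Dset b = ⋂ N : ℕ, ⋃ k : ℕ, {x : Cx | k ∈ supp x ∧ k ∈ b ∧ N ≤ k} := by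
    ext x
    simp only [Dset, mem_ofPred_eq, mem_iInter, mem_iUnion]
    constructor
    · intro h N
      obtain ⟨k, hk, hk'⟩ := h.exists_gt N
      exact ⟨k, hk.1, hk.2, hk'.le⟩
    · intro h hfin
      obtain ⟨M, hM⟩ := hfin.bddAbove
      obtain ⟨k, h1, h2, h3⟩ := h (M + 1)
      have := hM ⟨h1, h2⟩
      omega
  rw [this]
  refine MeasurableSet.iInter fun N => MeasurableSet.iUnion fun k => ?_
  by_cases h : k ∈ b ∧ N ≤ k
  · simpa [h] using measurable_mem k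
  · have : {x : Cx | k ∈ supp x ∧ k ∈ b ∧ N ≤ k} = ∅ := by
      ext x
      simp only [mem_ofPred_eq, mem_empty_iff_false, iff_false]
      exact fun h' => h h'.2
    rw [this]
    exact MeasurableSet.empty

theorem measurable_Kset (g : ℕ → ℕ) : MeasurableSet (Kset g) := by
  have h1 : {x : Cx | (supp x).Finite} = (Dset Set.univ)ᶜ := by
    ext x
    simp [Dset]
  have h2 : {x : Cx | ∀ᶠ n in atTop, ∃ k ∈ supp x, n ≤ k ∧ k < g n} =
      ⋃ N : ℕ, ⋂ n : ℕ, ⋃ k : ℕ, {x : Cx | N ≤ n → k ∈ supp x ∧ n ≤ k ∧ k < g n} := by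
    ext x
    simp only [mem_ofPred_eq, eventually_atTop, mem_iUnion, mem_iInter]
    constructor
    · rintro ⟨N, hN⟩
      refine ⟨N, fun n => ?_⟩
      by_cases h : N ≤ n
      · obtain ⟨k, hk⟩ := hN n h
        exact ⟨k, fun _ => hk⟩
      · exact ⟨0, fun h' => absurd h' h⟩
    · rintro ⟨N, hN⟩
      refine ⟨N, fun n hn => ?_⟩
      obtain ⟨k, hk⟩ := hN n
      exact ⟨k, hk hn⟩
  have h3 : Kset g = {x : Cx | (supp x).Finite} ∪
      {x : Cx | ∀ᶠ n in atTop, ∃ k ∈ supp x, n ≤ k ∧ k < g n} := rfl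
  rw [h3, h1, h2]
  refine (measurable_Dset _).compl.union (MeasurableSet.iUnion fun N => MeasurableSet.iInter
    fun n => MeasurableSet.iUnion fun k => ?_)
  by_cases h : N ≤ n
  · by_cases h' : n ≤ k ∧ k < g n
    · simpa [h, h'] using measurable_mem k
    · have : {x : Cx | N ≤ n → k ∈ supp x ∧ n ≤ k ∧ k < g n} = ∅ := by
        ext x
        simp only [mem_ofPred_eq, mem_empty_iff_false, iff_false]
        exact fun h'' => h' (h'' h).2
      rw [this]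
      exact MeasurableSet.empty
  · have : {x : Cx | N ≤ n → k ∈ supp x ∧ n ≤ k ∧ k < g n} = Set.univ := by
      ext x
      simp [h]
    rw [this]
    exact MeasurableSet.univ

theorem measurable_Gen (E : Om1 → Set ℕ) (B : Om2 → ℕ → Set ℕ) (n : ℕ) (ν : Om2) (γ : Om1)
    (g : ℕ → ℕ) : MeasurableSet (Gen E B n ν γ g) :=
  ((measurable_Dset _).union (measurable_Dset _)).union (measurable_Kset _)

end Pool.Agent.U69.CI
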